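import Pool.Agent.H4.FU.CaseA

/-!
# Project FULL: case 1
-/

set_option autoImplicit false

open Module QuadraticForm Filter Topology
open Pool.Agent.H47.QG (Pt action flw oseq Gen ind hess Zn MeanIdx)
open Pool.Agent.H47.ST
open Pool.Agent.H75.TH (Near Sepd Alive Wrong)
open Pool.Agent.H45.AC (Rgd)
open Pool.Agent.H1.TU (StepP Pert)
open Pool.Agent.H10.TU (NegFam SDe comb)
open Pool.Agent.H10.TU
open Pool.Agent.H93.TU (CaseA_tot CaseC_D2 caseB_pert)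

namespace Pool.Agent.H4.FU

variable {n : ℕ}

/-- **Case 1.** -/
theorem case1 {S : ℕ → Pt n → ℝ} {f : ℕ → Pt n → Pt n} (hS : ∀ j, Gen (S j) (f j)) {N : ℕ}
    [NeZero N] (hper : ∀ j, S (j + N) = S j) (hfper : ∀ j, f (j + N) = f j)
    (W : Finset (Pt n)) (hW : ∀ w, flw f N w = w ↔ ∃ w' ∈ W, w - w' ∈ Zn n)
    (hWd : ∀ w ∈ W, ∀ w' ∈ W, w - w' ∈ Zn n → w = w') (hno : ¬ WrongB S f N) :
    ∃ w, flw f N w = w ∧ MeanIdx S f N w 0 ∧ ind S f N w = n * (N - 1) ∧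
      ∀ e : Fin (n * (N - 1)) → (Iz n N → ℝ), NegFam (fS S N) (zw f N w) e →
        SDe (fS S N) (zw f N w) e := by
  classical
  unfold WrongB at hno
  push Not at hno
  obtain ⟨C, hC⟩ := hno
  obtain ⟨C₀, hC₀⟩ := fS_grad hS N
  obtain ⟨R₀, hR₀, hRgd⟩ := Pool.Agent.H45.AC.exists_Rgd n N one_pos (C + C₀)
  obtain ⟨q, hq, -, g, hg, hsep, R, hR, hna⟩ := hC 1 one_pos R₀ 0
  have hC' : ∀ y b, |fderiv ℝ g y (Pi.single b 1) - DK n N y b| ≤ C + C₀ := fun y b => by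
    have h1 := abs_sub_le (fderiv ℝ g y (Pi.single b 1)) (fderiv ℝ (fS S N) y (Pi.single b 1))
      (DK n N y b)
    have h2 := hg.grad y b
    have h3 := hC₀ y b
    linarith
  have hT := CaseA_tot hS W hW hWd hg hC' (hRgd R hR)
  have hfix : ∀ w ∈ W, flw f N w = w := fun w hw =>
    (hW w).2 ⟨w, hw, by rw [sub_self]; exact (Zn n).zero_mem⟩
  -- the second derivative of `g` at the critical points
  have hcrit : ∀ w ∈ W, fderiv ℝ (fS S N) (zw f N w) = 0 := fun w hw => by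
    rw [← hg.crit]
    exact (hT.mem _ (Finset.mem_image_of_mem _ hw)).1
  have hD2 : ∀ w ∈ W, fderiv ℝ (fderiv ℝ g) (zw f N w) = fderiv ℝ (fderiv ℝ (fS S N))
      (zw f N w) := fun w hw => by
    obtain ⟨c, hc⟩ := hg.loc _ (hcrit w hw)
    exact CaseC_D2 hc
  have hsig : ∀ w ∈ W, sigNeg (hess g (zw f N w)) = ind S f N w := fun w hw => by
    rw [← fS_sigNeg hS N w]
    unfold hess
    rw [hD2 w hw]
  obtain ⟨w₀, hw₀, -, hlab, hfr⟩ := caseA hS hper hfper W hW hWd hg hsep hC' (hRgd R hR)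
    (fun w t h1 h2 h3 h4 => hna w t h1 h2 h3 h4)
    (Pool.Agent.H16.TU.top_HR_two (ZMod q) n N (hR₀.trans_le hR) (hR₀.trans_le hR))
  -- a small radius
  obtain ⟨r₀, hin, hr₀⟩ : ∃ r₀ : ℝ, (∀ z ∈ W.image (zw f N),
      ∀ y ∈ Metric.closedBall z r₀, qK n N y < R ∧ -R < QK n N y) ∧ 0 < r₀ := by
    have h1 : ∀ᶠ r in 𝓝[>] (0 : ℝ), ∀ z ∈ W.image (zw f N),
        ∀ y ∈ Metric.closedBall z r, qK n N y < R ∧ -R < QK n N y := by
      rw [Filter.eventually_all_finset]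
      intro z hz
      have h2 : ∀ᶠ y in 𝓝 z, qK n N y < R ∧ -R < QK n N y :=
        ((hT.dm.q1.continuous.tendsto z).eventually_lt_const (hT.mem z hz).2.1).and
          ((hT.dm.Q1.continuous.tendsto z).eventually_const_lt (hT.mem z hz).2.2)
      obtain ⟨s, hs, hs'⟩ := Metric.eventually_nhds_iff.1 h2
      refine nhdsWithin_le_nhds ?_
      filter_upwards [gt_mem_nhds hs] with r hr y hy
      exact hs' ((Metric.mem_closedBall.1 hy).trans_lt hr)
    exact (h1.and self_mem_nhdsWithin).exists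
  set Z0 := (W.image (zw f N)).filter fun z => g z = g (zw f N w₀) ∧
    sigNeg (hess g z) = n * (N - 1) with hZ0
  obtain ⟨z, hz, hSD⟩ := Pool.Agent.H1.TU.case1_limit hr₀ hg.smooth Z0 (fun z hz => by
    rw [hZ0, Finset.mem_filter] at hz
    exact (hT.mem z hz.1).1) fun δ hδ => by
    obtain ⟨z, hz, h1, h2, h3⟩ := caseB_pert (ZMod q) hT (z₀ := zw f N w₀)
      (b := n * (N - 1)) (fun z hz he => by
        obtain ⟨w, hw, rfl⟩ := Finset.mem_image.1 hz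
        rw [hsig w hw]
        exact (hlab w hw he).2) (fun b₁ b₂ h1 h2 h3 => hfr b₁ b₂ h1 h2 fun w hw =>
          h3 _ (Finset.mem_image_of_mem (zw f N) hw)) hin hδ
    exact ⟨z, Finset.mem_filter.2 ⟨hz, h1, h2⟩, h3⟩
  rw [hZ0, Finset.mem_filter] at hz
  obtain ⟨hz, h1, h2⟩ := hz
  obtain ⟨w, hw, rfl⟩ := Finset.mem_image.1 hz
  refine ⟨w, hfix w hw, (hlab w hw h1).1, by rw [← hsig w hw]; exact h2, fun e he => ?_⟩
  obtain ⟨c, hc⟩ := hg.loc _ (hcrit w hw)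
  exact Pool.Agent.H1.TU.SDe_congr hc (hSD e (Pool.Agent.H1.TU.NegFam_congr hc he))

end Pool.Agent.H4.FU
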