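import Pool.Agent.H4.FU.Defs
import Pool.Agent.H93.TU.CaseC
import Pool.Agent.H88.TU.Case2

/-!
# Project FULL: the last band has label zero, with a bound for the labels
-/

set_option autoImplicit false

open Module QuadraticForm Filter Topology
open Pool.Agent.H47.QG (Pt action flw oseq Gen ind hess Zn MeanIdx)
open Pool.Agent.H47.ST
open Pool.Agent.H75.TH (Near Sepd Alive Wrong)
open Pool.Agent.H45.AC (Rgd)
open Pool.Agent.H93.TU
open Pool.Agent.H88.TU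

namespace Pool.Agent.H4.FU

variable {n : ℕ}

/-- the window of a critical point of mean index `t` -/
theorem win_mean {S : ℕ → Pt n → ℝ} {f : ℕ → Pt n → Pt n} (hS : ∀ j, Gen (S j) (f j)) {K : ℕ}
    [NeZero K] (hper : ∀ j, S (j + K) = S j) (hfper : ∀ j, f (j + K) = f j) {C ε : ℝ}
    {g : (Iz n K → ℝ) → ℝ} (hg : Near S K C ε g) {w : Pt n} (hw : flw f K w = w) {t : ℝ}
    (ht : MeanIdx S f K w t) {j : ℕ} (h1 : sigNeg (hess g (zw f K w)) ≤ j)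
    (h2 : j + sigPos (hess g (zw f K w)) ≤ Fintype.card (Iz n K)) :
    t + n * K ≤ j + n ∧ (j : ℝ) ≤ t + n * K + 3 * n := by
  have hK : 0 < K := Nat.pos_of_neZero K
  obtain ⟨t', ht', hb⟩ := CaseA_mean hS hK hper hfper w hw
  have h0 := CaseA_unique ht' ht
  subst h0
  have h3 := abs_le.1 (hb 1 one_pos)
  rw [one_mul] at h3
  rw [near_ind hS hg hw] at h1
  rw [near_hess hg (zw_crit hS hw)] at h2
  have h4 := fS_null hS K w
  have h5 : (ind S f K w : ℝ) ≤ j := by exact_mod_cast h1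
  have h6 : (j : ℝ) ≤ ind S f K w + 2 * n := by
    have h7 : j ≤ ind S f K w + 2 * n := by omega
    exact_mod_cast h7
  push_cast at h3
  constructor
  · linarith [h3.1]
  · linarith [h3.2]

/-- a thin band with cohomology in the degree `j` has a critical point whose window contains
`j` -/
theorem thin_win {S : ℕ → Pt n → ℝ} {f : ℕ → Pt n → Pt n} (hS : ∀ j, Gen (S j) (f j)) {K : ℕ}
    [NeZero K] (hper : ∀ j, S (j + K) = S j) (hfper : ∀ j, f (j + K) = f j)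
    (W : Finset (Pt n)) (hW : ∀ w, flw f K w = w ↔ ∃ w' ∈ W, w - w' ∈ Zn n)
    (hWd : ∀ w ∈ W, ∀ w' ∈ W, w - w' ∈ Zn n → w = w') {C ε : ℝ} {g : (Iz n K → ℝ) → ℝ}
    (hg : Near S K C ε g) (hsep : Sepd S f K g) {C' R : ℝ}
    (hC' : ∀ y b, |fderiv ℝ g y (Pi.single b 1) - DK n K y b| ≤ C') (hR : Rgd n K 1 C' R)
    (F : Type) [Field F] {w₀ : Pt n} (hw₀ : w₀ ∈ W) {t : ℝ} (ht : MeanIdx S f K w₀ t)
    {j : ℕ} (hj : ∀ b₁ b₂, b₁ < g (zw f K w₀) → g (zw f K w₀) < b₂ →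
        (∀ w ∈ W, b₁ ≤ g (zw f K w) → g (zw f K w) ≤ b₂ → g (zw f K w) = g (zw f K w₀)) →
        ∃ᶠ M : ℕ in atTop, ¬ HR F (lam (Lc n K) (2 ^ M)) (Lv (qK n K) (QK n K) g R R b₂ (2 ^ M))
          (Lv (qK n K) (QK n K) g R R b₁ (2 ^ M)) j 0) :
    t + n * K ≤ j + n ∧ (j : ℝ) ≤ t + n * K + 3 * n := by
  classical
  have hT := CaseA_tot hS W hW hWd hg hC' hR
  have hfix : ∀ w ∈ W, flw f K w = w := fun w hw =>
    (hW w).2 ⟨w, hw, by rw [sub_self]; exact (Zn n).zero_mem⟩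
  set Z := W.image (zw f K) with hZ
  obtain ⟨α, β, -, h2, h3, -, h5⟩ := CaseB_thin (Z.image g) (g (zw f K w₀))
    (g (zw f K w₀) - 1) (g (zw f K w₀) + 1) (by linarith) (by linarith)
  have h5' : ∀ z ∈ Z, α ≤ g z → g z ≤ β → g z = g (zw f K w₀) := fun z hz =>
    h5 _ (Finset.mem_image_of_mem g hz)
  have hα : α ∉ Z.image g := fun hm => by
    have := h5 α hm le_rfl (h2.trans h3).le
    linarith
  have hβ : β ∉ Z.image g := fun hm => by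
    have := h5 β hm (h2.trans h3).le le_rfl
    linarith
  have h6 := hj α β h2 h3 fun w hw => h5' _ (Finset.mem_image_of_mem _ hw)
  obtain ⟨M, h7, h8⟩ := (h6.and_eventually (window_out F (hT.band (h2.trans h3) hα hβ))).exists
  by_contra hcon
  refine h7 (h8 j fun z hz => ?_)
  rw [Finset.mem_filter] at hz
  obtain ⟨w, hw, rfl⟩ := Finset.mem_image.1 hz.1
  rintro ⟨h9, h10⟩
  obtain ⟨t', ht', -⟩ := CaseA_mean hS (Nat.pos_of_neZero K) hper hfper w (hfix w hw)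
  have hval := h5' _ hz.1 hz.2.1.le hz.2.2.le
  have htt : t' = t := by
    by_contra hne
    exact hsep w w₀ t' t (hfix w hw) (hfix w₀ hw₀) ht' ht hne hval
  subst htt
  exact hcon (win_mean hS hper hfper hg (hfix w hw) ht' h9 h10)

/-- **The last band has label zero.** -/
theorem caseA {S : ℕ → Pt n → ℝ} {f : ℕ → Pt n → Pt n} (hS : ∀ j, Gen (S j) (f j)) {N : ℕ}
    [NeZero N] (hper : ∀ j, S (j + N) = S j) (hfper : ∀ j, f (j + N) = f j)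
    (W : Finset (Pt n)) (hW : ∀ w, flw f N w = w ↔ ∃ w' ∈ W, w - w' ∈ Zn n)
    (hWd : ∀ w ∈ W, ∀ w' ∈ W, w - w' ∈ Zn n → w = w') {C ε : ℝ} {g : (Iz n N → ℝ) → ℝ}
    (hg : Near S N C ε g) (hsep : Sepd S f N g) {C' R : ℝ}
    (hC' : ∀ y b, |fderiv ℝ g y (Pi.single b 1) - DK n N y b| ≤ C') (hR : Rgd n N 1 C' R)
    {q : ℕ} [Fact q.Prime]
    (hna : ∀ w t, flw f N w = w → MeanIdx S f N w t → t ≠ 0 → |t| ≤ 4 * n + 1 →
      ¬ Alive f N g q R (g (zw f N w)))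
    (htop : ∀ᶠ M : ℕ in atTop, ¬ HR (ZMod q) (lam (Lc n N) (2 ^ M))
      (Xm (qK n N) R (2 ^ M)) (Am (qK n N) (QK n N) R R (2 ^ M)) (n * (N - 1)) 0) :
    ∃ w₀ ∈ W, MeanIdx S f N w₀ 0 ∧
      (∀ w ∈ W, g (zw f N w) = g (zw f N w₀) → MeanIdx S f N w 0 ∧ n * (N - 1) ≤ ind S f N w) ∧
      ∀ b₁ b₂, b₁ < g (zw f N w₀) → g (zw f N w₀) < b₂ →
        (∀ w ∈ W, b₁ ≤ g (zw f N w) → g (zw f N w) ≤ b₂ → g (zw f N w) = g (zw f N w₀)) →
        ∃ᶠ M : ℕ in atTop, LB (ZMod q) (lam (Lc n N) (2 ^ M)) (Xm (qK n N) R (2 ^ M))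
          (Am (qK n N) (QK n N) R R (2 ^ M)) (Lv (qK n N) (QK n N) g R R b₁ (2 ^ M))
          (Lv (qK n N) (QK n N) g R R b₂ (2 ^ M)) (n * (N - 1)) := by
  classical
  have hN : 0 < N := Nat.pos_of_neZero N
  have hT := CaseA_tot hS W hW hWd hg hC' hR
  obtain ⟨z₀, hz₀, hlast⟩ := last_value (ZMod q) hT htop
  obtain ⟨w₀, hw₀, rfl⟩ := Finset.mem_image.1 hz₀
  have hfix : ∀ w ∈ W, flw f N w = w := fun w hw =>
    (hW w).2 ⟨w, hw, by rw [sub_self]; exact (Zn n).zero_mem⟩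
  have hlast' : ∀ b₁ b₂, b₁ < g (zw f N w₀) → g (zw f N w₀) < b₂ →
        (∀ w ∈ W, b₁ ≤ g (zw f N w) → g (zw f N w) ≤ b₂ → g (zw f N w) = g (zw f N w₀)) →
        ∃ᶠ M : ℕ in atTop, LB (ZMod q) (lam (Lc n N) (2 ^ M)) (Xm (qK n N) R (2 ^ M))
          (Am (qK n N) (QK n N) R R (2 ^ M)) (Lv (qK n N) (QK n N) g R R b₁ (2 ^ M))
          (Lv (qK n N) (QK n N) g R R b₂ (2 ^ M)) (n * (N - 1)) := by
    intro b₁ b₂ h1 h2 h3
    refine hlast b₁ b₂ h1 h2 fun z hz => ?_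
    obtain ⟨w, hw, rfl⟩ := Finset.mem_image.1 hz
    exact h3 w hw
  -- no band is acyclic
  have hne : ∀ b₁ b₂, b₁ < g (zw f N w₀) → g (zw f N w₀) < b₂ →
        (∀ w ∈ W, b₁ ≤ g (zw f N w) → g (zw f N w) ≤ b₂ → g (zw f N w) = g (zw f N w₀)) →
        ∃ᶠ M : ℕ in atTop, ¬ HR (ZMod q) (lam (Lc n N) (2 ^ M))
          (Lv (qK n N) (QK n N) g R R b₂ (2 ^ M))
          (Lv (qK n N) (QK n N) g R R b₁ (2 ^ M)) (n * (N - 1)) 0 := by
    intro b₁ b₂ h2 h3 h4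
    refine (hlast' b₁ b₂ h2 h3 h4).mono fun M h7 => ?_
    exact h7.ne (Xm_inv hT.dm.qp R (by positivity))
      (Lv_inv hT.dm.qp hT.dm.Qp hT.per R R b₂ (by positivity)) (Am_sub_Lv _ _)
      (Lv_mono _ _ _ R R (h2.trans h3).le _) (Lv_sub_Xm _ _)
  -- the label is zero
  obtain ⟨t, ht, -⟩ := CaseA_mean hS hN hper hfper w₀ (hfix w₀ hw₀)
  have htb : |t| ≤ 4 * n + 1 := by
    have h1 := thin_win hS hper hfper W hW hWd hg hsep hC' hR (ZMod q) hw₀ ht hne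
    have h2 : ((n * (N - 1) : ℕ) : ℝ) = n * N - n := by
      rw [Nat.mul_sub, mul_one, Nat.cast_sub (Nat.le_mul_of_pos_right n hN)]
      push_cast
      ring
    rw [h2] at h1
    rw [abs_le]
    have h3 : (0 : ℝ) ≤ n := Nat.cast_nonneg n
    constructor <;> linarith [h1.1, h1.2]
  have ht0 : t = 0 := by
    by_contra hne0
    have h1 := hna w₀ t (hfix w₀ hw₀) ht hne0 htb
    refine h1 fun b₁ b₂ h2 h3 h4 => ⟨n * (N - 1), ?_⟩
    exact hne b₁ b₂ h2 h3 fun w hw => h4 w (hfix w hw)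
  subst ht0
  refine ⟨w₀, hw₀, ht, fun w hw he => ?_, hlast'⟩
  obtain ⟨t', ht', -⟩ := CaseA_mean hS hN hper hfper w (hfix w hw)
  have ht'0 : t' = 0 := by
    by_contra hne
    exact hsep w w₀ t' 0 (hfix w hw) (hfix w₀ hw₀) ht' ht hne he
  subst ht'0
  exact ⟨ht', CaseA_ge hS hN hper hfper w (hfix w hw) ht'⟩

end Pool.Agent.H4.FU
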