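import Pool.Agent.H75.TH.Wrong

/-!
# Project FULL: the interface of section 3
-/

set_option autoImplicit false

open Module QuadraticForm Filter Topology
open Pool.Agent.H47.QG (Pt action flw oseq Gen ind hess Zn MeanIdx)
open Pool.Agent.H47.ST
open Pool.Agent.H75.TH (Near Sepd Alive Wrong)

namespace Pool.Agent.H4.FU

variable {n : ℕ}

/-- **An alive critical value of small nonzero mean index.** As `Wrong`, with the bound `4 n + 1`
for the mean index. -/
def WrongB (S : ℕ → Pt n → ℝ) (f : ℕ → Pt n → Pt n) (K : ℕ) [NeZero K] : Prop :=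
  ∀ C : ℝ, ∃ ε > 0, ∃ (R₀ : ℝ) (q₀ : ℕ), ∀ (q : ℕ) [Fact q.Prime], q₀ ≤ q →
    ∀ g : (Iz n K → ℝ) → ℝ, Near S K C ε g → Sepd S f K g → ∀ R ≥ R₀,
      ∃ w t, flw f K w = w ∧ MeanIdx S f K w t ∧ t ≠ 0 ∧ |t| ≤ 4 * n + 1 ∧
        Alive f K g q R (g (zw f K w))

/-- **An alive critical value without fixed points of the base map.** For every small
perturbation of the action of period `k N` which separates the mean indices, some critical value
which is not the value of a fixed point of `flw f N` has a thin band with cohomology over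
`ZMod q`, for all large primes `q`. -/
def WrongN (S : ℕ → Pt n → ℝ) (f : ℕ → Pt n → Pt n) (N k : ℕ) [NeZero (k * N)] : Prop :=
  ∀ C : ℝ, ∃ ε > 0, ∃ (R₀ : ℝ) (q₀ : ℕ), ∀ (q : ℕ) [Fact q.Prime], q₀ ≤ q →
    ∀ g : (Iz n (k * N) → ℝ) → ℝ, Near S (k * N) C ε g → Sepd S f (k * N) g → ∀ R ≥ R₀,
      ∃ w, flw f (k * N) w = w ∧ (∀ w', flw f N w' = w' →
          g (zw f (k * N) w') ≠ g (zw f (k * N) w)) ∧
        Alive f (k * N) g q R (g (zw f (k * N) w))

end Pool.Agent.H4.FU
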