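import Pool.Agent.H4.FU.CaseA

/-!
# Project FULL: bands between two levels when no value of small label is alive
-/

set_option autoImplicit false

open Module QuadraticForm Filter Topology
open Pool.Agent.H47.QG (Pt action flw oseq Gen ind hess Zn MeanIdx)
open Pool.Agent.H47.ST
open Pool.Agent.H75.TH (Near Sepd Alive Wrong)
open Pool.Agent.H45.AC (Rgd exists_Rgd)
open Pool.Agent.H93.TU
open Pool.Agent.H88.TU

namespace Pool.Agent.H4.FU

section tot

variable {ι : Type*} [Fintype ι] [DecidableEq ι]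
variable {L : AddSubgroup (ι → ℤ)} {q Q f : (ι → ℝ) → ℝ} {R a : ℝ} {Z : Finset (ι → ℝ)}

/-- **Between two levels, one degree.** If every critical value in between has an acyclic thin
band or only critical points whose windows do not contain `j` then the band is acyclic in the
degree `j`. -/
theorem Tot_between_at (F : Type*) [Field F] (h : Tot L q Q f R a Z) {lo hi : ℝ} (hlt : lo < hi)
    (hlo : lo ∉ Z.image f) (hhi : hi ∉ Z.image f) {j : ℕ}
    (hval : ∀ z ∈ Z, lo < f z → f z < hi →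
      (∃ b₁ b₂, b₁ < f z ∧ f z < b₂ ∧ (∀ z' ∈ Z, b₁ ≤ f z' → f z' ≤ b₂ → f z' = f z) ∧
        ∀ᶠ M : ℕ in atTop, ∀ j, HR F (lam L (2 ^ M)) (Lv q Q f R a b₂ (2 ^ M))
          (Lv q Q f R a b₁ (2 ^ M)) j 0) ∨
      ∀ z' ∈ Z, f z' = f z →
        ¬ (sigNeg (hess f z') ≤ j ∧ j + sigPos (hess f z') ≤ Fintype.card ι)) :
    ∀ᶠ M : ℕ in atTop, HR F (lam L (2 ^ M)) (Lv q Q f R a hi (2 ^ M))
      (Lv q Q f R a lo (2 ^ M)) j 0 := by
  classical
  obtain ⟨M0, α, h0, hM0, hα, hV1, hV2⟩ :=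
    Pool.Agent.H45.AC.levels_between (Z.image f) hlt hlo hhi
  have hinv : ∀ (c : ℝ) (M : ℕ), Inv (lam L (2 ^ M)) (Lv q Q f R a c (2 ^ M)) := fun c M =>
    Lv_inv h.dm.qp h.dm.Qp h.per R a c (by positivity)
  -- the levels increase
  have hmono : ∀ m ≤ M0, ∀ i ≤ m, α i ≤ α m := by
    intro m
    induction m with
    | zero =>
      intro _ i hi
      rw [Nat.le_zero.1 hi]
    | succ m ih =>
      intro hm i hi
      rcases Nat.lt_or_ge m i with h1 | h1
      · rw [show i = m + 1 by omega]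
      · exact (ih (by omega) i h1).trans (hα m (by omega)).le
  -- every small band
  have hsmall : ∀ i < M0, ∀ᶠ M : ℕ in atTop, HR F (lam L (2 ^ M))
      (Lv q Q f R a (α (i + 1)) (2 ^ M)) (Lv q Q f R a (α i) (2 ^ M)) j 0 := by
    intro i hi'
    by_cases hex : ∃ z ∈ Z, α i < f z ∧ f z < α (i + 1)
    · obtain ⟨z, hz, h1, h2⟩ := hex
      have hsame : ∀ z' ∈ Z, α i ≤ f z' → f z' ≤ α (i + 1) → f z' = f z := by
        intro z' hz' h3 h4
        have h3' : α i < f z' := lt_of_le_of_ne h3 fun he =>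
          hV1 i hi'.le (by rw [he]; exact Finset.mem_image_of_mem f hz')
        have h4' : f z' < α (i + 1) := lt_of_le_of_ne h4 fun he =>
          hV1 (i + 1) hi' (by rw [← he]; exact Finset.mem_image_of_mem f hz')
        exact hV2 i hi' _ (Finset.mem_image_of_mem f hz') _ (Finset.mem_image_of_mem f hz)
          h3' h4' h1 h2
      have h5 : lo < f z := by
        rw [← h0]
        exact (hmono i hi'.le 0 (Nat.zero_le _)).trans_lt h1
      have h6 : f z < hi := by
        rw [← hM0]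
        exact h2.trans_le (hmono M0 le_rfl (i + 1) hi')
      rcases hval z hz h5 h6 with ⟨b₁, b₂, h7, h8, h9, h10⟩ | h7
      · filter_upwards [Tot_transfer F h h7 h8 h1 h2 h9 hsame h10] with M hM
        exact hM j
      · filter_upwards [window_out F (h.band (hα i hi') (hV1 i hi'.le) (hV1 (i + 1) hi'))]
          with M hM
        refine hM j fun z' hz' => ?_
        rw [Finset.mem_filter] at hz'
        exact h7 z' hz'.1 (hsame z' hz'.1 hz'.2.1.le hz'.2.2.le)
    · push Not at hex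
      filter_upwards [h.acyclic F (hα i hi') (fun z hz h1 => by
        have h3 : α i < f z := lt_of_le_of_ne h1.1 fun he =>
          hV1 i hi'.le (by rw [he]; exact Finset.mem_image_of_mem f hz)
        have h4 := hex z hz h3
        exact hV1 (i + 1) hi' (by
          rw [le_antisymm h4 h1.2]; exact Finset.mem_image_of_mem f hz))] with M hM
      exact hM j
  have hall : ∀ᶠ M : ℕ in atTop, ∀ i ∈ Finset.range M0, HR F (lam L (2 ^ M))
      (Lv q Q f R a (α (i + 1)) (2 ^ M)) (Lv q Q f R a (α i) (2 ^ M)) j 0 := by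
    rw [Filter.eventually_all_finset]
    exact fun i hi => hsmall i (Finset.mem_range.1 hi)
  filter_upwards [hall] with M hM
  have key : ∀ i ≤ M0, HR F (lam L (2 ^ M)) (Lv q Q f R a (α i) (2 ^ M))
      (Lv q Q f R a (α 0) (2 ^ M)) j 0 := by
    intro i
    induction i with
    | zero => exact fun _ => Lev_self _ _ j 0
    | succ i ih =>
      intro hi'
      exact HR.comp (hinv _ _) (hinv _ _) (Lv_mono q Q f R a (hmono i (by omega) 0 (by omega)) _)
        (Lv_mono q Q f R a (hα i (by omega)).le _) (ih (by omega))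
        (hM i (Finset.mem_range.2 (by omega)))
  have h1 := key M0 le_rfl
  rwa [h0, hM0] at h1

end tot

variable {n : ℕ}

/-- **No band in the degree `n K - n - 1`.** If no critical value of points with mean index
`0 < |t| ≤ 4 n + 1` is alive then the band between any two regular levels is acyclic in the
degree `n K - n - 1`. -/
theorem near_between {S : ℕ → Pt n → ℝ} {f : ℕ → Pt n → Pt n} (hS : ∀ j, Gen (S j) (f j)) {K : ℕ}
    [NeZero K] (hper : ∀ j, S (j + K) = S j) (hfper : ∀ j, f (j + K) = f j)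
    (W : Finset (Pt n)) (hW : ∀ w, flw f K w = w ↔ ∃ w' ∈ W, w - w' ∈ Zn n)
    (hWd : ∀ w ∈ W, ∀ w' ∈ W, w - w' ∈ Zn n → w = w') {C ε : ℝ} {g : (Iz n K → ℝ) → ℝ}
    (hg : Near S K C ε g) (hsep : Sepd S f K g) {C' R : ℝ}
    (hC' : ∀ y b, |fderiv ℝ g y (Pi.single b 1) - DK n K y b| ≤ C') (hR : Rgd n K 1 C' R)
    {q : ℕ} [Fact q.Prime]
    (hna : ∀ w t, flw f K w = w → MeanIdx S f K w t → t ≠ 0 → |t| ≤ 4 * n + 1 →
      ¬ Alive f K g q R (g (zw f K w)))
    {lo hi : ℝ} (hlt : lo < hi) (hlo : ∀ w, flw f K w = w → g (zw f K w) ≠ lo)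
    (hhi : ∀ w, flw f K w = w → g (zw f K w) ≠ hi) {j : ℕ} (hj : j + n + 1 = n * K) :
    ∀ᶠ M : ℕ in atTop, HR (ZMod q) (lam (Lc n K) (2 ^ M))
      (Lv (qK n K) (QK n K) g R R hi (2 ^ M)) (Lv (qK n K) (QK n K) g R R lo (2 ^ M)) j 0 := by
  classical
  have hK : 0 < K := Nat.pos_of_neZero K
  have hT := CaseA_tot hS W hW hWd hg hC' hR
  have hfix : ∀ w ∈ W, flw f K w = w := fun w hw =>
    (hW w).2 ⟨w, hw, by rw [sub_self]; exact (Zn n).zero_mem⟩
  refine Tot_between_at (ZMod q) hT hlt (fun hm => ?_) (fun hm => ?_) fun z hz h1 h2 => ?_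
  · obtain ⟨z, hz, h3⟩ := Finset.mem_image.1 hm
    obtain ⟨w, hw, rfl⟩ := Finset.mem_image.1 hz
    exact hlo w (hfix w hw) h3
  · obtain ⟨z, hz, h3⟩ := Finset.mem_image.1 hm
    obtain ⟨w, hw, rfl⟩ := Finset.mem_image.1 hz
    exact hhi w (hfix w hw) h3
  · obtain ⟨w, hw, rfl⟩ := Finset.mem_image.1 hz
    obtain ⟨t, ht, -⟩ := CaseA_mean hS hK hper hfper w (hfix w hw)
    by_cases ht0 : t ≠ 0 ∧ |t| ≤ 4 * n + 1
    · left
      have h3 := hna w t (hfix w hw) ht ht0.1 ht0.2
      unfold Alive at h3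
      push Not at h3
      obtain ⟨b₁, b₂, h4, h5, h6, h7⟩ := h3
      refine ⟨b₁, b₂, h4, h5, fun z' hz' => ?_, ?_⟩
      · obtain ⟨w', hw', rfl⟩ := Finset.mem_image.1 hz'
        exact h6 w' (hfix w' hw')
      · exact Tot_all h7
    · right
      intro z' hz' he
      obtain ⟨w', hw', rfl⟩ := Finset.mem_image.1 hz'
      obtain ⟨t', ht', -⟩ := CaseA_mean hS hK hper hfper w' (hfix w' hw')
      have htt : t' = t := by
        by_contra hne
        exact hsep w' w t' t (hfix w' hw') (hfix w hw) ht' ht hne he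
      subst htt
      rintro ⟨h3, h4⟩
      have h5 := win_mean hS hper hfper hg (hfix w' hw') ht' h3 h4
      have h6 : (j : ℝ) + n + 1 = n * K := by exact_mod_cast hj
      apply ht0
      refine ⟨fun h0 => ?_, ?_⟩
      · rw [h0] at h5
        linarith [h5.1]
      · have h7 : (0 : ℝ) ≤ n := Nat.cast_nonneg n
        rw [abs_le]
        constructor <;> linarith [h5.1, h5.2]

/-- **A class in the degree `n K - n - 1`** gives an alive value of small nonzero label. -/
theorem wrongB_of_low {S : ℕ → Pt n → ℝ} {f : ℕ → Pt n → Pt n} (hS : ∀ j, Gen (S j) (f j)) {K : ℕ}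
    [NeZero K] (hper : ∀ j, S (j + K) = S j) (hfper : ∀ j, f (j + K) = f j)
    (W : Finset (Pt n)) (hW : ∀ w, flw f K w = w ↔ ∃ w' ∈ W, w - w' ∈ Zn n)
    (hWd : ∀ w ∈ W, ∀ w' ∈ W, w - w' ∈ Zn n → w = w') {b : ℕ} (hb : b + n + 1 = n * K)
    (h : Low S K b) : WrongB S f K := by
  classical
  intro C
  obtain ⟨ε, hε, R₁, h1⟩ := h
  obtain ⟨C₂, hC₂⟩ := fS_grad hS K
  obtain ⟨R₂, -, hR₂⟩ := exists_Rgd n K one_pos (C + C₂)
  refine ⟨ε, hε, max R₁ R₂, 0, fun q _ _ g hg hsep R hR => ?_⟩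
  by_contra hcon
  push Not at hcon
  have hC' : ∀ y b, |fderiv ℝ g y (Pi.single b 1) - DK n K y b| ≤ C + C₂ := by
    intro y b
    have h2 := hg.grad y b
    have h3 := hC₂ y b
    have h4 : fderiv ℝ g y (Pi.single b 1) - DK n K y b =
        (fderiv ℝ g y (Pi.single b 1) - fderiv ℝ (fS S K) y (Pi.single b 1)) +
          (fderiv ℝ (fS S K) y (Pi.single b 1) - DK n K y b) := by ring
    rw [h4]
    exact (abs_add_le _ _).trans (by linarith)
  obtain ⟨lo, hi, hlt, hlo, hhi, hH⟩ := h1 (ZMod q) g hg.smooth.continuous hg.per hg.sup R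
    ((le_max_left _ _).trans hR) (W.image fun w => g (zw f K w))
  have hval : ∀ w, flw f K w = w → g (zw f K w) ∈ W.image fun w => g (zw f K w) := by
    intro w hw
    obtain ⟨w', hw', he⟩ := (hW w).1 hw
    obtain ⟨l, hl, h2⟩ := (zw_add hS K w w').2 he
    rw [h2, hg.per l hl]
    exact Finset.mem_image_of_mem (fun w => g (zw f K w)) hw'
  have h2 := near_between hS hper hfper W hW hWd hg hsep hC' (hR₂ R ((le_max_right _ _).trans hR))
    hcon hlt (fun w hw he => hlo (by rw [← he]; exact hval w hw))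
    (fun w hw he => hhi (by rw [← he]; exact hval w hw)) hb
  have h3 : Tendsto (fun M : ℕ => 2 ^ M) atTop atTop :=
    tendsto_pow_atTop_atTop_of_one_lt (by norm_num)
  obtain ⟨M, h4, h5⟩ := (h2.and (h3.eventually hH)).exists
  exact h5 h4

end Pool.Agent.H4.FU
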