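import Pool.Agent.H4.FU.Case1
import Pool.Agent.H4.FU.Near
import Pool.Agent.H10.FU.LvmOdd
import Pool.Agent.H77.TU.Neg
import Pool.Agent.H45.AC.LevK2

/-!
# Project FULL, section 3: an odd level with an alive value which is not the value of a fixed point
-/

set_option autoImplicit false

open Module QuadraticForm Filter Topology
open Pool.Agent.H47.QG (Pt action flw oseq Gen ind hess Zn MeanIdx)
open Pool.Agent.H47.ST
open Pool.Agent.H75.TH (Near Sepd Alive Wrong)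

namespace Pool.Agent.H4.FU

variable {n : ℕ}

/-- **Some odd multiple of every period has an alive value of small nonzero mean index.** -/
theorem exists_wrongB {S : ℕ → Pt n → ℝ} {f : ℕ → Pt n → Pt n} (hS : ∀ j, Gen (S j) (f j))
    (hn : 0 < n) {N : ℕ} [NeZero N] (hper : ∀ j, S (j + N) = S j) (hfper : ∀ j, f (j + N) = f j)
    (hfin : ∀ m : ℕ, 0 < m → ∃ W : Finset (Pt n),
      (∀ w, flw f (m * N) w = w ↔ ∃ w' ∈ W, w - w' ∈ Zn n) ∧
      ∀ w ∈ W, ∀ w' ∈ W, w - w' ∈ Zn n → w = w') :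
    ∃ (k : ℕ) (_ : NeZero (k * N)), Odd k ∧ WrongB S f (k * N) := by
  have hN : 0 < N := Nat.pos_of_neZero N
  by_cases h : WrongB S f N
  · have h1 : 1 * N = N := one_mul N
    have h2 : NeZero (1 * N) := ⟨by rw [h1]; exact NeZero.ne N⟩
    refine ⟨1, h2, odd_one, ?_⟩
    have h3 : ∀ K, K = N → ∀ _ : NeZero K, WrongB S f K := by
      rintro K rfl _
      exact h
    exact h3 _ h1 h2
  · obtain ⟨W, hW, hWd⟩ := hfin 1 one_pos
    rw [one_mul] at hW
    obtain ⟨w, hw, hM, hind, hSD⟩ := case1 hS hper hfper W hW hWd h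
    obtain ⟨e, he⟩ := Pool.Agent.H77.TU.exists_negFam (f := fS S N) (fS_smooth hS N) (zw f N w)
      (d := n * (N - 1)) (by rw [fS_sigNeg hS N w, hind])
    obtain ⟨m0, hm0, hlow⟩ := Pool.Agent.H10.FU.lvm_low_all hS hn hper hfper W hW hw hM he
      (hSD e he)
    have hk : 0 < 2 * m0 + 1 := by omega
    have hK : NeZero ((2 * m0 + 1) * N) := ⟨(Nat.mul_pos hk hN).ne'⟩
    refine ⟨2 * m0 + 1, hK, ⟨m0, rfl⟩, ?_⟩
    obtain ⟨W', hW', hWd'⟩ := hfin (2 * m0 + 1) hk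
    refine wrongB_of_low hS (Pool.Agent.H88.TU.per_mul hper _)
      (Pool.Agent.H88.TU.per_mul hfper _) W' hW' hWd' (b := n * ((2 * m0 + 1) * N) - n - 1) ?_
      (hlow (2 * m0 + 1) (by omega))
    have h1 : n * 2 ≤ n * ((2 * m0 + 1) * N) := Nat.mul_le_mul_left n (by nlinarith)
    omega

/-- the mean indices of the fixed points are bounded away from zero -/
theorem mean_gap {S : ℕ → Pt n → ℝ} {f : ℕ → Pt n → Pt n} (hS : ∀ j, Gen (S j) (f j))
    {N : ℕ} (W : Finset (Pt n)) (hW : ∀ w, flw f N w = w ↔ ∃ w' ∈ W, w - w' ∈ Zn n) :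
    ∃ μ : ℝ, 0 < μ ∧ ∀ w t, flw f N w = w → MeanIdx S f N w t → t ≠ 0 → μ ≤ |t| := by
  classical
  have h1 : ∀ᶠ μ in 𝓝[>] (0 : ℝ), ∀ w ∈ W, ∀ t, MeanIdx S f N w t → t ≠ 0 → μ ≤ |t| := by
    rw [Filter.eventually_all_finset]
    intro w _
    by_cases hex : ∃ t, MeanIdx S f N w t ∧ t ≠ 0
    · obtain ⟨t, ht, ht0⟩ := hex
      refine nhdsWithin_le_nhds ?_
      filter_upwards [gt_mem_nhds (abs_pos.2 ht0)] with μ hμ t' ht' _
      rw [Pool.Agent.H93.TU.CaseA_unique ht' ht]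
      exact le_of_lt hμ
    · push Not at hex
      exact Filter.Eventually.of_forall fun μ t ht ht0 => absurd (hex t ht) ht0
  obtain ⟨μ, h2, h3⟩ := (h1.and self_mem_nhdsWithin).exists
  refine ⟨μ, h3, fun w t hw ht ht0 => ?_⟩
  obtain ⟨w', hw', he⟩ := (hW w).1 hw
  refine h2 w' hw' t ?_ ht0
  unfold MeanIdx at ht ⊢
  refine ht.congr fun m => ?_
  rw [Pool.Agent.H45.AC.LevK_ind_add hS (m * N) he]

/-- **Section 3 of project FULL.** Some odd level has an alive value which is not the value of a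
fixed point of the base map. -/
theorem exists_wrongN {S : ℕ → Pt n → ℝ} {f : ℕ → Pt n → Pt n} (hS : ∀ j, Gen (S j) (f j))
    (hn : 0 < n) {N : ℕ} [NeZero N] (hper : ∀ j, S (j + N) = S j) (hfper : ∀ j, f (j + N) = f j)
    (hfin : ∀ m : ℕ, 0 < m → ∃ W : Finset (Pt n),
      (∀ w, flw f (m * N) w = w ↔ ∃ w' ∈ W, w - w' ∈ Zn n) ∧
      ∀ w ∈ W, ∀ w' ∈ W, w - w' ∈ Zn n → w = w') :
    ∃ (k : ℕ) (_ : NeZero (k * N)), Odd k ∧ WrongN S f N k := by
  have hN : 0 < N := Nat.pos_of_neZero N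
  obtain ⟨W, hW, -⟩ := hfin 1 one_pos
  rw [one_mul] at hW
  obtain ⟨μ, hμ, hgap⟩ := mean_gap hS W hW
  -- the base level
  obtain ⟨m0, hm0⟩ := exists_nat_gt ((4 * n + 1) / μ)
  set m := 2 * m0 + 1 with hm
  have hmpos : 0 < m := by omega
  have hmμ : 4 * (n : ℝ) + 1 < m * μ := by
    rw [div_lt_iff₀ hμ] at hm0
    have h1 : (m0 : ℝ) ≤ m := by
      rw [hm]
      push_cast
      have : (0 : ℝ) ≤ m0 := Nat.cast_nonneg _
      linarith
    nlinarith
  have hmN : NeZero (m * N) := ⟨(Nat.mul_pos hmpos hN).ne'⟩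
  obtain ⟨k, hk, hkodd, hwr⟩ := exists_wrongB hS hn (N := m * N)
    (Pool.Agent.H88.TU.per_mul hper m) (Pool.Agent.H88.TU.per_mul hfper m)
    (fun j hj => by
      have h1 := hfin (j * m) (Nat.mul_pos hj hmpos)
      rwa [Nat.mul_assoc] at h1)
  have hkpos : 0 < k := hkodd.pos
  have hK : NeZero (k * m * N) := ⟨(Nat.mul_pos (Nat.mul_pos hkpos hmpos) hN).ne'⟩
  refine ⟨k * m, hK, hkodd.mul ⟨m0, rfl⟩, ?_⟩
  have hwr' : WrongB S f (k * m * N) := by
    have h3 : ∀ K, K = k * (m * N) → ∀ _ : NeZero K, WrongB S f K := by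
      rintro K rfl _
      exact hwr
    exact h3 _ (Nat.mul_assoc _ _ _) hK
  intro C
  obtain ⟨ε, hε, R₀, q₀, h1⟩ := hwr' C
  refine ⟨ε, hε, R₀, q₀, fun q _ hq g hg hsep R hR => ?_⟩
  obtain ⟨w, t, hw, ht, ht0, htb, hal⟩ := h1 q hq g hg hsep R hR
  refine ⟨w, hw, fun w' hw' he => ?_, hal⟩
  have hwk : flw f (k * m * N) w' = w' :=
    Pool.Agent.H45.AC.LevK_mul_fix hfper (k * m) w' hw'
  obtain ⟨s, hs, -⟩ := Pool.Agent.H93.TU.CaseA_mean hS hN hper hfper w' hw'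
  have hs' := (Pool.Agent.H45.AC.LevK_mean_mul hS hN (Nat.mul_pos hkpos hmpos) hper hfper w' hw'
    s).2 hs
  have hts : t = ((k * m : ℕ) : ℝ) * s := by
    by_contra hne
    exact hsep w' w _ t hwk hw hs' ht (fun h => hne h.symm) he
  have hs0 : s ≠ 0 := by
    intro h0
    rw [h0, mul_zero] at hts
    exact ht0 hts
  have h2 := hgap w' s hw' hs hs0
  rw [hts, abs_mul, abs_of_nonneg (Nat.cast_nonneg _)] at htb
  have h3 : (m : ℝ) ≤ ((k * m : ℕ) : ℝ) := by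
    exact_mod_cast Nat.le_mul_of_pos_left m hkpos
  have h4 : (m : ℝ) * μ ≤ ((k * m : ℕ) : ℝ) * |s| :=
    mul_le_mul h3 h2 hμ.le (Nat.cast_nonneg _)
  linarith

end Pool.Agent.H4.FU
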