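import Pool.Agent.H75.TH.Core
import Pool.Agent.H75.FU.Defs
import Pool.Agent.H75.FU.PcoI
import Pool.Agent.H15.FU.Spl
import Pool.Agent.H45.AC.Top

/-!
# Project FULL: values without fixed points of the base map are dead
-/

set_option autoImplicit false

namespace Pool.Agent.H4.FU

open Filter Topology QuadraticForm
open Pool.Agent.H47.ST
open Pool.Agent.H47.QG (hess)
open Pool.Agent.H45.AC (Adm ClI SepI Rgd exists_Rgd shG shG_eq shG_pow Adm_apply Adm_pow_apply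
  Adm_ps Adm_qK Adm_QK Top_lat)
open Pool.Agent.H75.TH
open Pool.Agent.H75.FU (Slip pco)
open Pool.Agent.H25.FU (PS Pk PSt band_PS)

/-! ### Levels -/

/-- levels which separate the values of `V` and are close to each other near `v` -/
theorem OmC_levels (V : Finset ℝ) (lo hi v B : ℝ) :
    ∃ (M : ℕ) (α : ℕ → ℝ), StrictMono α ∧ α 0 ≤ lo ∧ hi ≤ α M ∧ (∀ i, α i ∉ V) ∧
      (∀ i, ∀ x ∈ V, ∀ x' ∈ V, α i < x → x < α (i + 1) → α i < x' → x' < α (i + 1) → x = x') ∧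
      ∀ i, v - B ≤ α (i + 1) → α i ≤ v + B → α (i + 1) - α i < 1 := by
  classical
  set m : ℕ := ⌈8 * B⌉₊ + 8 with hm
  have hmB : 8 * B + 8 ≤ (m : ℝ) := by
    rw [hm]
    push_cast
    linarith [Nat.le_ceil (8 * B)]
  set P : ℕ → ℝ := fun i => v - B - 1 + i / 4 with hP
  obtain ⟨M, α, h1, h2, h3, h4, h5⟩ := exists_levels (V ∪ (Finset.range (m + 1)).image P) lo hi
  refine ⟨M, α, h1, h2, h3, fun i hi => h4 i (Finset.mem_union_left _ hi),
    fun i x hx x' hx' => h5 i x (Finset.mem_union_left _ hx) x' (Finset.mem_union_left _ hx'),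
    fun i e1 e2 => ?_⟩
  by_contra hcon
  push Not at hcon
  obtain ⟨k, hk1, hk2, hk3⟩ : ∃ k : ℕ, α i < P k ∧ P (k + 1) < α (i + 1) ∧ k + 1 ≤ m := by
    rcases lt_or_ge (α i) (v - B - 1) with h6 | h6
    · refine ⟨0, ?_, ?_, by omega⟩
      · simp only [hP]
        push_cast
        linarith
      · simp only [hP]
        push_cast
        linarith
    · have h7 : 0 ≤ 4 * (α i - (v - B - 1)) := by linarith
      have h8 := Nat.floor_le h7
      have h9 := Nat.lt_floor_add_one (4 * (α i - (v - B - 1)))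
      refine ⟨⌊4 * (α i - (v - B - 1))⌋₊ + 1, ?_, ?_, ?_⟩
      · simp only [hP]
        push_cast
        linarith
      · simp only [hP]
        push_cast
        linarith
      · have h10 : ((⌊4 * (α i - (v - B - 1))⌋₊ + 1 + 1 : ℕ) : ℝ) ≤ m := by
          push_cast
          linarith
        exact_mod_cast h10
  have hPk : P k < P (k + 1) := by
    simp only [hP]
    push_cast
    linarith
  have hm1 : P k ∈ V ∪ (Finset.range (m + 1)).image P :=
    Finset.mem_union_right _ (Finset.mem_image_of_mem P (Finset.mem_range.2 (by omega)))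
  have hm2 : P (k + 1) ∈ V ∪ (Finset.range (m + 1)).image P :=
    Finset.mem_union_right _ (Finset.mem_image_of_mem P (Finset.mem_range.2 (by omega)))
  have h11 := h5 i _ hm1 _ hm2 hk1 (hPk.trans hk2) (hk1.trans hPk) hk2
  linarith

/-- the band of a real number -/
theorem OmC_find (α : ℕ → ℝ) (x : ℝ) (M : ℕ) (h0 : α 0 < x) (hM : x ≤ α M) :
    ∃ i < M, α i < x ∧ x ≤ α (i + 1) := by
  induction M with
  | zero => exact absurd h0 hM.not_gt
  | succ M ih =>
    rcases le_or_gt x (α M) with h1 | h1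
    · obtain ⟨i, hi, h2⟩ := ih h1
      exact ⟨i, by omega, h2⟩
    · exact ⟨M, Nat.lt_succ_self M, h1, hM⟩

/-- steps down -/
theorem OmC_down {α : ℕ → ℝ} (hα : StrictMono α) {M : ℕ} {v B C₀ : ℝ} (hC₀ : 0 ≤ C₀)
    (h0 : α 0 < v - B) (hM : v + B ≤ α M)
    (hs : ∀ i, v - B ≤ α (i + 1) → α i ≤ v + B → α (i + 1) - α i < 1) (i₀ : ℕ)
    (hi₁ : v - 1 < α i₀) (hi₂ : α i₀ ≤ v) (r : ℕ) (hr : r * (C₀ + 1) + 1 + C₀ ≤ B) :
    ∃ s : ℕ → ℕ, s 0 = i₀ ∧ (∀ i, s (i + 1) ≤ s i) ∧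
      (∀ i < r, α (s (i + 1)) ≤ α (s i) - C₀) ∧
      ∀ i ≤ r, v - 1 - i * (C₀ + 1) < α (s i) := by
  have hstep : ∀ a : ℕ, ∃ b, b ≤ a ∧ (v - B ≤ α a - C₀ → α a ≤ v →
      α b ≤ α a - C₀ ∧ α a - C₀ - 1 < α b) := by
    intro a
    by_cases h : v - B ≤ α a - C₀ ∧ α a ≤ v
    · have hB : 0 ≤ B := by
        have : (0 : ℝ) ≤ r * (C₀ + 1) := by positivity
        linarith
      obtain ⟨i, -, h1, h2⟩ := OmC_find α (α a - C₀) M (by linarith [h.1]) (by linarith [h.2])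
      have h3 := hs i (by linarith [h.1]) (by linarith [h.2])
      refine ⟨i, ?_, fun _ _ => ⟨h1.le, by linarith⟩⟩
      exact (hα.lt_iff_lt.1 (show α i < α a by linarith)).le
    · exact ⟨a, le_rfl, fun h1 h2 => absurd ⟨h1, h2⟩ h⟩
  choose st hst1 hst2 using hstep
  refine ⟨fun i => st^[i] i₀, rfl, fun i => ?_, ?_⟩
  · show st^[i + 1] i₀ ≤ _
    rw [Function.iterate_succ_apply']
    exact hst1 _
  · have hle : ∀ i, st^[i] i₀ ≤ i₀ := by
      intro i
      induction i with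
      | zero => exact le_rfl
      | succ i ih =>
        rw [Function.iterate_succ_apply']
        exact (hst1 _).trans ih
    have hlo : ∀ i ≤ r, v - 1 - i * (C₀ + 1) < α (st^[i] i₀) := by
      intro i
      induction i with
      | zero =>
        intro _
        show v - 1 - ((0 : ℕ) : ℝ) * (C₀ + 1) < α i₀
        rw [Nat.cast_zero, zero_mul, sub_zero]
        exact hi₁
      | succ i ih =>
        intro hi
        have h1 := ih (by omega)
        have h2 : (i : ℝ) + 1 ≤ r := by exact_mod_cast hi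
        have h3 : ((i : ℝ) + 1) * (C₀ + 1) ≤ r * (C₀ + 1) :=
          mul_le_mul_of_nonneg_right h2 (by linarith)
        have h4 : α (st^[i] i₀) ≤ v := (hα.monotone (hle i)).trans hi₂
        have h5 := hst2 (st^[i] i₀) (by nlinarith) h4
        rw [Function.iterate_succ_apply']
        push_cast
        nlinarith [h5.2]
    refine ⟨fun i hi => ?_, hlo⟩
    have h1 := hlo i hi.le
    have h2 : (i : ℝ) ≤ r := by exact_mod_cast hi.le
    have h3 : (i : ℝ) * (C₀ + 1) ≤ r * (C₀ + 1) := mul_le_mul_of_nonneg_right h2 (by linarith)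
    have h4 : α (st^[i] i₀) ≤ v := (hα.monotone (hle i)).trans hi₂
    show α (st^[i + 1] i₀) ≤ _
    rw [Function.iterate_succ_apply']
    exact (hst2 (st^[i] i₀) (by linarith) h4).1

/-- steps up -/
theorem OmC_up {α : ℕ → ℝ} (hα : StrictMono α) {M : ℕ} {v B C₀ : ℝ} (hC₀ : 0 ≤ C₀)
    (h0 : α 0 < v - B) (hM : v + B ≤ α M)
    (hs : ∀ i, v - B ≤ α (i + 1) → α i ≤ v + B → α (i + 1) - α i < 1) (i₁ : ℕ)
    (hi₁ : v ≤ α i₁) (hi₂ : α i₁ < v + 1) (r : ℕ) (hr : r * (C₀ + 1) + 1 + C₀ ≤ B) :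
    ∃ t : ℕ → ℕ, t r = i₁ ∧ (∀ i, t (i + 1) ≤ t i) ∧
      (∀ i < r, α (t (i + 1)) ≤ α (t i) - C₀) ∧ α (t 0) < v + 1 + r * (C₀ + 1) := by
  have hB : 0 ≤ B := by
    have : (0 : ℝ) ≤ r * (C₀ + 1) := by positivity
    linarith
  have hstep : ∀ a : ℕ, ∃ b, a ≤ b ∧ (α a + C₀ ≤ v + B → v ≤ α a →
      α a + C₀ ≤ α b ∧ α b < α a + C₀ + 1) := by
    intro a
    by_cases h : α a + C₀ ≤ v + B ∧ v ≤ α a
    · obtain ⟨i, -, h1, h2⟩ := OmC_find α (α a + C₀) M (by linarith [h.2]) (by linarith [h.1])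
      have h3 := hs i (by linarith [h.2]) (by linarith [h.1])
      refine ⟨i + 1, ?_, fun _ _ => ⟨h2, by linarith⟩⟩
      exact hα.le_iff_le.1 (show α a ≤ α (i + 1) by linarith)
    · exact ⟨a, le_rfl, fun h1 h2 => absurd ⟨h1, h2⟩ h⟩
  choose up hup1 hup2 using hstep
  have hge : ∀ i, i₁ ≤ up^[i] i₁ := by
    intro i
    induction i with
    | zero => exact le_rfl
    | succ i ih =>
      rw [Function.iterate_succ_apply']
      exact ih.trans (hup1 _)
  have hhi : ∀ i ≤ r, α (up^[i] i₁) < v + 1 + i * (C₀ + 1) := by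
    intro i
    induction i with
    | zero =>
      intro _
      show α i₁ < v + 1 + ((0 : ℕ) : ℝ) * (C₀ + 1)
      rw [Nat.cast_zero, zero_mul, add_zero]
      exact hi₂
    | succ i ih =>
      intro hi
      have h1 := ih (by omega)
      have h2 : (i : ℝ) + 1 ≤ r := by exact_mod_cast hi
      have h3 : ((i : ℝ) + 1) * (C₀ + 1) ≤ r * (C₀ + 1) :=
        mul_le_mul_of_nonneg_right h2 (by linarith)
      have h4 : v ≤ α (up^[i] i₁) := hi₁.trans (hα.monotone (hge i))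
      have h5 := hup2 (up^[i] i₁) (by nlinarith) h4
      rw [Function.iterate_succ_apply']
      push_cast
      nlinarith [h5.2]
  refine ⟨fun i => up^[r - i] i₁, ?_, fun i => ?_, fun i hi => ?_, ?_⟩
  · show up^[r - r] i₁ = i₁
    rw [Nat.sub_self]
    rfl
  · show up^[r - (i + 1)] i₁ ≤ up^[r - i] i₁
    rcases Nat.lt_or_ge i r with h | h
    · rw [show r - i = (r - (i + 1)) + 1 by omega, Function.iterate_succ_apply']
      exact hup1 _
    · rw [show r - (i + 1) = 0 by omega, show r - i = 0 by omega]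
  · show α (up^[r - (i + 1)] i₁) ≤ α (up^[r - i] i₁) - C₀
    rw [show r - i = (r - (i + 1)) + 1 by omega, Function.iterate_succ_apply']
    have h1 := hhi (r - (i + 1)) (by omega)
    have h2 : ((r - (i + 1) : ℕ) : ℝ) ≤ r := by exact_mod_cast Nat.sub_le _ _
    have h3 : ((r - (i + 1) : ℕ) : ℝ) * (C₀ + 1) ≤ r * (C₀ + 1) :=
      mul_le_mul_of_nonneg_right h2 (by linarith)
    have h4 : v ≤ α (up^[r - (i + 1)] i₁) := hi₁.trans (hα.monotone (hge _))
    have h5 := (hup2 (up^[r - (i + 1)] i₁) (by linarith) h4).1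
    linarith
  · show α (up^[r - 0] i₁) < _
    rw [Nat.sub_zero]
    exact hhi r le_rfl

/-! ### The shift by `N` and the folding -/

theorem OmC_pinv {n K N : ℕ} [NeZero K] {f : (Iz n K → ℝ) → ℝ}
    (hf : ∀ y, f (y ∘ shG n K N) = f y) (R a b : ℝ) (m : ℕ) :
    PInv (shG n K N) (Lv (qK n K) (QK n K) f R a b m) := by
  intro v
  simp only [Lv, Set.mem_ofPred_eq]
  rw [Adm_ps, Adm_qK, Adm_QK, hf]

theorem OmC_pinvX {n K N : ℕ} [NeZero K] (R : ℝ) (m : ℕ) :
    PInv (shG n K N) (Xm (qK n K) R m) := by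
  intro v
  simp only [Xm, Set.mem_ofPred_eq]
  rw [Adm_ps, Adm_qK]

/-- reduction and shift commute -/
theorem OmC_fold {n p K N : ℕ} [NeZero K] [NeZero (p * K)] (a : Iz n (p * K)) :
    shs n p K (shG n (p * K) N a) = shG n K N (shs n p K a) := by
  obtain ⟨j, b⟩ := a
  rw [Adm_apply]
  change ((Fin.ofNat K ((j + Fin.ofNat (p * K) N : Fin (p * K)) : ℕ)), b) =
    (Fin.ofNat K (j : ℕ) + Fin.ofNat K N, b)
  congr 1
  rw [← ShK_ofNat_add]
  apply ShK_ofNat_congr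
  rw [Fin.val_add]
  have e : ((Fin.ofNat (p * K) N : Fin (p * K)) : ℕ) = N % (p * K) := rfl
  rw [e, Nat.add_mod_mod, Nat.mod_mul_left_mod]

theorem OmC_fold_pow {n p K N : ℕ} [NeZero K] [NeZero (p * K)] (u : ℕ) (a : Iz n (p * K)) :
    shs n p K ((shG n (p * K) N ^ u) a) = (shG n K N ^ u) (shs n p K a) := by
  induction u generalizing a with
  | zero => rfl
  | succ u ih =>
    rw [pow_succ, pow_succ, Equiv.Perm.mul_apply, Equiv.Perm.mul_apply, ih, OmC_fold]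

theorem OmC_pow_one {n k N : ℕ} [NeZero (k * N)] (m : ℕ) :
    shG n (k * N) N ^ (m * k) = 1 := by
  rw [shG_eq, mul_comm m k, pow_mul, shp_pow, one_pow]

theorem OmC_pow_one' {n p k N : ℕ} [NeZero (p * (k * N))] :
    shG n (p * (k * N)) N ^ (p * k) = 1 := by
  rw [← shG_pow, mul_assoc]
  ext1 a
  obtain ⟨j, b⟩ := a
  rw [Adm_apply, ShK_ofNat_self, add_zero]
  rfl

theorem OmC_inv_pow {ι α : Type*} {g : (ι → ℝ) → α} {π : Equiv.Perm ι}
    (h : ∀ y, g (y ∘ π) = g y) (u : ℕ) (y : ι → ℝ) : g (y ∘ ⇑(π ^ u)) = g y := by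
  induction u generalizing y with
  | zero => rfl
  | succ u ih =>
    have e : y ∘ ⇑(π ^ (u + 1)) = (y ∘ ⇑(π ^ u)) ∘ π := by
      funext i
      rw [pow_succ]
      rfl
    rw [e, h, ih]

theorem OmC_fix_pow {ι α : Type*} {π : Equiv.Perm ι} {y : ι → α} (h : y ∘ π = y) (u : ℕ) :
    y ∘ ⇑(π ^ u) = y := by
  induction u with
  | zero => rfl
  | succ u ih =>
    have e : y ∘ ⇑(π ^ (u + 1)) = (y ∘ ⇑(π ^ u)) ∘ π := by
      funext i
      rw [pow_succ]
      rfl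
    rw [e, ih, h]

/-- a sequence which is fixed by the `p`-th power of the shift modulo the lattice is fixed by the
shift -/
theorem OmC_free {n p k N : ℕ} [NeZero (k * N)] (hk : 0 < k) (hpk : Nat.Coprime p k)
    {z : Iz n (k * N) → ℝ} {l : Iz n (k * N) → ℤ} (hl : l ∈ Lc n (k * N))
    (h : z ∘ ⇑(shG n (k * N) N ^ p) = z + rl l) : z ∘ shG n (k * N) N = z := by
  have hl' : l ∘ ⇑(shG n (k * N) N ^ p) = l := OmC_fix_pow (Top_lat hl) p
  have h1 : ∀ i : ℕ, z ∘ ⇑((shG n (k * N) N ^ p) ^ i) = z + (i : ℝ) • rl l := by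
    intro i
    induction i with
    | zero =>
      rw [Nat.cast_zero, zero_smul, add_zero]
      rfl
    | succ i ih =>
      have e : z ∘ ⇑((shG n (k * N) N ^ p) ^ (i + 1)) =
          (z ∘ ⇑((shG n (k * N) N ^ p) ^ i)) ∘ ⇑(shG n (k * N) N ^ p) := by
        funext a
        rw [pow_succ]
        rfl
      rw [e, ih]
      funext a
      have e1 := congrFun h a
      have e2 := congrFun hl' a
      simp only [Function.comp_apply, Pi.add_apply, Pi.smul_apply, smul_eq_mul, rl] at e1 e2 ⊢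
      rw [e1, e2]
      push_cast
      ring
  -- the shift of the lattice is zero
  have h2 : rl l = 0 := by
    have h3 := h1 k
    have h4 : (shG n (k * N) N ^ p) ^ k = 1 := by
      rw [← pow_mul]
      exact OmC_pow_one p
    rw [h4] at h3
    have h5 : (k : ℝ) • rl l = 0 := by
      have h6 : z + (k : ℝ) • rl l = z + 0 := by rw [add_zero]; exact h3.symm
      exact add_left_cancel h6
    rcases smul_eq_zero.1 h5 with h6 | h6
    · exact absurd h6 (by exact_mod_cast hk.ne')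
    · exact h6
  rw [h2, add_zero] at h
  have h0 : shG n (k * N) N ^ k = 1 := by
    have := OmC_pow_one (n := n) (k := k) (N := N) 1
    rwa [one_mul] at this
  rcases Nat.lt_or_ge 1 k with hk1 | hk1
  · obtain ⟨m, -, hm⟩ := Nat.exists_mul_mod_eq_one_of_coprime hpk hk1
    have h3 := OmC_fix_pow h m
    have h4 : (shG n (k * N) N ^ p) ^ m = shG n (k * N) N := by
      rw [← pow_mul, ← Nat.div_add_mod (p * m) k, hm, pow_add, pow_mul, h0, one_pow, one_mul,
        pow_one]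
    rwa [h4] at h3
  · have hk2 : k = 1 := by omega
    have h4 : shG n (k * N) N = 1 := by
      have h5 : shG n (k * N) N ^ 1 = shG n (k * N) N ^ k :=
        congrArg (fun i => shG n (k * N) N ^ i) hk2.symm
      rwa [pow_one, h0] at h5
    rw [h4]
    rfl

/-! ### The folded band -/

/-- the folded band and its critical points -/
theorem OmC_band {n p K : ℕ} [NeZero K] [NeZero (p * K)] [Fact p.Prime] {C : ℝ} {G₁ G₂ : ℕ}
    {f : (Iz n (p * K) → ℝ) → ℝ} {W : Finset (Iz n (p * K) → ℝ)}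
    (h : Adm n (p * K) (shp n p K) C G₁ G₂ f W) {R : ℝ} (hR' : Rgd n K p (p * C) R) {b₁ b₂ : ℝ}
    (hb : b₁ < b₂) (h1 : ∀ z ∈ W, f z ≠ b₁) (h2 : ∀ z ∈ W, f z ≠ b₂) :
    ∃ W' : Finset (Iz n K → ℝ), Band (Lc n K) (fun t => p * qK n K t) (fun t => p * QK n K t)
      (fun y : Iz n K → ℝ => f (y ∘ shs n p K)) R R b₁ b₂ W' ∧
      ∀ y ∈ W', y ∘ shs n p K ∈ W ∧ b₁ < f (y ∘ shs n p K) ∧ f (y ∘ shs n p K) < b₂ := by
  classical
  have hp : p.Prime := Fact.out
  have hp0 : (0 : ℝ) < p := by exact_mod_cast hp.pos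
  have hfd : Differentiable ℝ f := h.smooth.differentiable (by norm_num)
  have hfb : ContDiff ℝ 2 (fun y : Iz n K → ℝ => f (y ∘ shs n p K)) :=
    fold_smooth (shs n p K) 2 f h.smooth
  obtain ⟨hB1', hB2'⟩ := hR' (fun y : Iz n K → ℝ => f (y ∘ shs n p K))
    (hfb.differentiable (by norm_num)) (EqM_partial hfd h.grad)
  have hcf := crit_of_fold (shp n p K) hp.pos (shp_pow n p K) (shs n p K)
    (fun v => shp_fix v) f hfd h.inv
  obtain ⟨σ, hσ⟩ := (shs_surj (n := n) (p := p) (N := K) hp.pos).hasRightInverse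
  have hσ' : ∀ y : Iz n K → ℝ, (y ∘ shs n p K) ∘ σ = y := fun y => by
    funext a
    exact congrArg y (hσ a)
  have hz : ∀ z : Iz n (p * K) → ℝ, z ∘ shp n p K = z → (z ∘ σ) ∘ shs n p K = z := by
    intro z hz
    obtain ⟨y, rfl⟩ := (shp_fix z).1 hz
    rw [hσ']
  have hWc : ∀ z ∈ W, fderiv ℝ f z = 0 := fun z hz =>
    (h.crit z).2 ⟨z, hz, 0, (Lc n (p * K)).zero_mem, by rw [Win_rl_zero, add_zero]⟩
  set W' : Finset (Iz n K → ℝ) :=
    (W.filter fun z => z ∘ shp n p K = z ∧ b₁ < f z ∧ f z < b₂).image (fun z => z ∘ σ) with hW'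
  have hmem : ∀ y ∈ W', y ∘ shs n p K ∈ W ∧ b₁ < f (y ∘ shs n p K) ∧ f (y ∘ shs n p K) < b₂ := by
    intro y hy
    obtain ⟨z, hz1, rfl⟩ := Finset.mem_image.1 hy
    rw [Finset.mem_filter] at hz1
    rw [hz z hz1.2.1]
    exact ⟨hz1.1, hz1.2.2⟩
  refine ⟨W', ⟨dom_Dm n K hp0 R R, hfb, EqM_per h.per, hB1', hb, ?_, ?_, ?_⟩, hmem⟩
  · intro y hy
    obtain ⟨e1, e2, e3⟩ := hmem y hy
    have h5 := (hcf y).2 (hWc _ e1)
    exact ⟨h5, (hB2' y h5).1, (hB2' y h5).2, e2, e3⟩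
  · intro y hy y' hy' l hl e
    obtain ⟨e1, -, -⟩ := hmem y hy
    obtain ⟨e2, -, -⟩ := hmem y' hy'
    have h3 : (l ∘ shs n p K) ∈ Lc n (p * K) := by
      obtain ⟨c, hc⟩ := hl
      exact ⟨c, fun j b => hc _ _⟩
    have h4 := h.inj _ e1 _ e2 _ h3 (by
      rw [e]
      rfl)
    rw [← hσ' y, ← hσ' y', h4]
  · intro y _ _ h3 h4 h5
    have h6 := (hcf y).1 h5
    obtain ⟨z, hz1, l, hl, hy⟩ := (h.crit _).1 h6
    have hy2 : (y ∘ shs n p K) ∘ shp n p K = y ∘ shs n p K :=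
      (shp_fix (y ∘ shs n p K)).2 ⟨y, rfl⟩
    have hzi : z ∘ shp n p K = z := by
      have hz2 : z = y ∘ shs n p K - rl l := by rw [hy, add_sub_cancel_right]
      have e : (y ∘ shs n p K - rl l) ∘ shp n p K =
          (y ∘ shs n p K) ∘ shp n p K - rl l ∘ shp n p K := rfl
      rw [hz2, e, hy2, Core_lat hl]
    have hfz : f (y ∘ shs n p K) = f z := by rw [hy, h.per l hl z]
    rw [hfz] at h3 h4
    refine ⟨z ∘ σ, Finset.mem_image_of_mem _ (Finset.mem_filter.2 ⟨hz1, hzi,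
      lt_of_le_of_ne h3 (h1 z hz1).symm, lt_of_le_of_ne h4 (h2 z hz1)⟩), ?_⟩
    obtain ⟨c, hc⟩ := hl
    refine ⟨fun a => c a.2, ⟨c, fun j b => rfl⟩, ?_⟩
    rw [← hσ' y, hy]
    funext a
    show z (σ a) + (l (σ a) : ℝ) = z (σ a) + (c a.2 : ℝ)
    have h7 : (σ a).2 = a.2 := by
      have h8 := congrArg Prod.snd (hσ a)
      exact h8
    rw [show l (σ a) = c (σ a).2 from hc _ _, h7]

/-! ### The core theorem -/

/-- **Core of Theorem Omega.** -/
theorem OM_core {n p k N : ℕ} [NeZero N] [NeZero (k * N)] [NeZero (p * (k * N))] [Fact p.Prime]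
    (hk : 0 < k) (hpk : ¬ p ∣ k) {C C₀ : ℝ} {G₁ G₂ : ℕ} (h12 : G₁ < G₂)
    {f : (Iz n (p * (k * N)) → ℝ) → ℝ} {W : Finset (Iz n (p * (k * N)) → ℝ)}
    (h : Adm n (p * (k * N)) (shp n p (k * N)) C G₁ G₂ f W) (hsep : SepI G₁ G₂ f W)
    (hγ : ∀ y, f (y ∘ shG n (p * (k * N)) N) = f y) (hC₀ : 0 ≤ C₀)
    (hslip : Slip (ZMod p) n (p * (k * N)) (shG n (p * (k * N)) N) f C₀) (v : ℝ)
    (hv : ∃ z ∈ W, z ∘ shp n p (k * N) = z ∧ ClI G₁ G₂ f z ∧ f z = v)
    (hgap : ∀ z ∈ W, z ∘ shp n p (k * N) = z → ClI G₁ G₂ f z → f z ≠ v →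
      ((G₂ : ℝ) - G₁) * (C₀ + 2) + 6 < |f z - v|)
    (hnf : ∀ z ∈ W, f z = v → z ∘ shG n (p * (k * N)) N ≠ z) :
    ∃ R₀ : ℝ, ∀ R ≥ R₀, ∃ b₁ b₂ : ℝ, b₁ < v ∧ v < b₂ ∧
      (∀ y : Iz n (k * N) → ℝ, fderiv ℝ f (y ∘ shs n p (k * N)) = 0 →
        b₁ ≤ f (y ∘ shs n p (k * N)) → f (y ∘ shs n p (k * N)) ≤ b₂ →
        f (y ∘ shs n p (k * N)) = v) ∧
      ∀ j, ∀ᶠ M : ℕ in atTop, HR (ZMod p) (lam (Lc n (k * N)) (2 ^ M))
        (Lv (fun t => p * qK n (k * N) t) (fun t => p * QK n (k * N) t)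
          (fun y : Iz n (k * N) → ℝ => f (y ∘ shs n p (k * N))) R R b₂ (2 ^ M))
        (Lv (fun t => p * qK n (k * N) t) (fun t => p * QK n (k * N) t)
          (fun y : Iz n (k * N) → ℝ => f (y ∘ shs n p (k * N))) R R b₁ (2 ^ M)) j 0 := by
  classical
  have hp : p.Prime := Fact.out
  have hp0 : (0 : ℝ) < p := by exact_mod_cast hp.pos
  have hf := h.smooth
  have hfp := h.per
  have hfd : Differentiable ℝ f := hf.differentiable (by norm_num)
  obtain ⟨r, hr⟩ : ∃ r, G₂ = G₁ + r := Nat.exists_eq_add_of_le h12.le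
  have hrr : (G₂ : ℝ) - G₁ = r := by rw [hr]; push_cast; ring
  have hr21 : G₂ - G₁ = r := by omega
  set B : ℝ := r * (C₀ + 1) + 1 + C₀ with hB
  have hrC : (0 : ℝ) ≤ r * (C₀ + 1) := by positivity
  -- the domain
  obtain ⟨R₁, -, hR1⟩ := exists_Rgd n (p * (k * N)) one_pos C
  obtain ⟨R₂, -, hR2⟩ := exists_Rgd n (k * N) hp0 (p * C)
  obtain ⟨R₃, hR3⟩ := hslip (v - B - 2)
  refine ⟨max (max R₁ R₂) R₃, fun R hR₀ => ?_⟩
  have hRa : R₁ ≤ R := ((le_max_left _ _).trans (le_max_left _ _)).trans hR₀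
  have hRb : R₂ ≤ R := ((le_max_right _ _).trans (le_max_left _ _)).trans hR₀
  have hRc : R₃ ≤ R := (le_max_right _ _).trans hR₀
  have hR := hR1 R hRa
  have hR' := hR2 R hRb
  have hD : Dm (Lc n (p * (k * N))) (qK n (p * (k * N))) (QK n (p * (k * N))) R R := by
    have h := dom_Dm n (p * (k * N)) one_pos R R
    simp only [one_mul] at h
    exact h
  -- the levels
  obtain ⟨M₀, α, hmono, hα0, hαM, hαV, hαs, hαn⟩ := OmC_levels (W.image f) (v - B - 1)
    (v + B + 1) v B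
  have hV0 : ∀ z ∈ W, f z ∈ W.image f := fun z hz => Finset.mem_image_of_mem f hz
  have hαf : ∀ i, ∀ z ∈ W, f z ≠ α i := fun i z hz e => hαV i (by rw [← e]; exact hV0 z hz)
  have hsame : ∀ i, ∀ z ∈ W, ∀ z' ∈ W, α i < f z → f z < α (i + 1) → α i < f z' →
      f z' < α (i + 1) → f z = f z' := fun i z hz z' hz' e1 e2 e3 e4 =>
    hαs i _ (hV0 z hz) _ (hV0 z' hz') e1 e2 e3 e4
  obtain ⟨z₀, hz₀, hz₀T, hz₀I, hz₀v⟩ := hv
  have hvα : ∀ i, α i ≠ v := fun i e => hαf i z₀ hz₀ (by rw [hz₀v, e])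
  obtain ⟨i₀, hi₀M, hi₀1, hi₀2'⟩ := OmC_find α v M₀ (by linarith) (by linarith)
  have hi₀2 : v < α (i₀ + 1) := lt_of_le_of_ne hi₀2' (hvα (i₀ + 1)).symm
  have hi₀s := hαn i₀ (by linarith) (by linarith)
  obtain ⟨s, hs0, hs1, hs2, hs3⟩ := OmC_down hmono (M := M₀) hC₀ (by linarith) (by linarith) hαn i₀
    (by linarith) hi₀1.le r le_rfl
  obtain ⟨t, ht0, ht1, ht2, ht3⟩ := OmC_up hmono (M := M₀) hC₀ (by linarith) (by linarith) hαn
    (i₀ + 1) hi₀2.le (by linarith) r le_rfl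
  have htM : t 0 < M₀ := hmono.lt_iff_lt.1 (by linarith)
  have hs' : ∀ i, s i ≤ i₀ := fun i => by
    induction i with
    | zero => rw [hs0]
    | succ i ih => exact (hs1 i).trans ih
  have ht' : ∀ i, t i ≤ t 0 := fun i => by
    induction i with
    | zero => exact le_rfl
    | succ i ih => exact (ht1 i).trans ih
  have ht'' : ∀ i ≤ r, i₀ + 1 ≤ t i := by
    intro i hi
    have h1 : ∀ j, t (i + j) ≤ t i := by
      intro j
      induction j with
      | zero => exact le_rfl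
      | succ j ih => exact (ht1 (i + j)).trans ih
    have h2 := h1 (r - i)
    rw [show i + (r - i) = r by omega, ht0] at h2
    exact h2
  -- no fixed value of class I near `v`
  have hno : ∀ i, s r ≤ i → i < t 0 → i ≠ i₀ → ∀ z ∈ W, z ∘ shp n p (k * N) = z →
      ClI G₁ G₂ f z → α i < f z → f z < α (i + 1) → False := by
    intro i e1 e2 e3 z hz hzT hzI e4 e5
    have e6 : f z ≠ v := by
      intro e
      rw [e] at e4 e5
      apply e3
      have e7 : i < i₀ + 1 := hmono.lt_iff_lt.1 (e4.trans hi₀2)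
      have e8 : i₀ < i + 1 := hmono.lt_iff_lt.1 (hi₀1.trans e5)
      omega
    have e7 := hgap z hz hzT hzI e6
    rw [hrr] at e7
    have e8 : α (s r) ≤ α i := hmono.monotone e1
    have e9 : α (i + 1) ≤ α (t 0) := hmono.monotone e2
    have e10 := hs3 r le_rfl
    rcases lt_abs.1 e7 with e11 | e11
    · nlinarith
    · nlinarith
  -- fine meshes
  have hev1 : ∀ᶠ M : ℕ in atTop, ∀ i ∈ Finset.range M₀, ∀ j,
      (∀ z ∈ W.filter fun z => α i < f z ∧ f z < α (i + 1),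
        ¬ (sigNeg (hess f z) ≤ j ∧ j + sigPos (hess f z) ≤ Fintype.card (Iz n (p * (k * N))))) →
      HR (ZMod p) (lam (Lc n (p * (k * N))) (2 ^ M))
        (Lv (qK n (p * (k * N))) (QK n (p * (k * N))) f R R (α (i + 1)) (2 ^ M))
        (Lv (qK n (p * (k * N))) (QK n (p * (k * N))) f R R (α i) (2 ^ M)) j 0 :=
    (Filter.eventually_all_finset _).2 fun i _ => window_out (ZMod p)
      (Core_band hR hf hfp h.grad h.crit h.inj (hmono (Nat.lt_succ_self i)) (hαf i) (hαf (i + 1)))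
  have hev2 : ∀ᶠ M : ℕ in atTop, ∀ i ∈ Finset.range M₀,
      (∀ z ∈ W, z ∘ shp n p (k * N) = z → α i < f z → f z < α (i + 1) → False) →
      ∀ j, HR (ZMod p) (lam (Lc n (k * N)) (2 ^ M))
        (fo (shs n p (k * N)) (Lv (qK n (p * (k * N))) (QK n (p * (k * N))) f R R (α (i + 1))
          (2 ^ M)))
        (fo (shs n p (k * N)) (Lv (qK n (p * (k * N))) (QK n (p * (k * N))) f R R (α i)
          (2 ^ M))) j 0 := by
    refine (Filter.eventually_all_finset _).2 fun i _ => ?_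
    by_cases hPi : ∀ z ∈ W, z ∘ shp n p (k * N) = z → α i < f z → f z < α (i + 1) → False
    · filter_upwards [window_out (ZMod p) (Core_fold h hR' (hmono (Nat.lt_succ_self i)) (hαf i)
        (hαf (i + 1)) hPi)] with M hM _ j
      rw [EqM_fo_Lv, EqM_fo_Lv]
      exact hM j fun z hz => absurd hz (Finset.notMem_empty z)
    · exact Filter.Eventually.of_forall fun M h => absurd h hPi
  have hev3 : ∀ᶠ M : ℕ in atTop, ∀ i ∈ Finset.range (M₀ + 1), v - B - 2 ≤ α i → ∀ j : ℕ,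
      ∀ c ∈ co (F := ZMod p) (lam (Lc n (p * (k * N))) (2 ^ M))
        (Xm (qK n (p * (k * N))) R (2 ^ M))
        (Lv (qK n (p * (k * N))) (QK n (p * (k * N))) f R R (α i) (2 ^ M)) (j + 1),
      dX (Xm (qK n (p * (k * N))) R (2 ^ M)) c = 0 →
      ∃ y ∈ co (F := ZMod p) (lam (Lc n (p * (k * N))) (2 ^ M))
        (Xm (qK n (p * (k * N))) R (2 ^ M))
        (Lv (qK n (p * (k * N))) (QK n (p * (k * N))) f R R (α i - C₀) (2 ^ M)) j,
        c - Tp (shG n (p * (k * N)) N) c = dX (Xm (qK n (p * (k * N))) R (2 ^ M)) y := by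
    refine (Filter.eventually_all_finset _).2 fun i _ => ?_
    by_cases hb : v - B - 2 ≤ α i
    · filter_upwards [hR3 R hRc (α i) hb] with M hM _
      exact hM
    · exact Filter.Eventually.of_forall fun M h => absurd h hb
  -- the folded band
  obtain ⟨W', hW'b, hW'm⟩ := OmC_band h hR' (hmono (Nat.lt_succ_self i₀)) (hαf i₀) (hαf (i₀ + 1))
  have hcop : Nat.Coprime p k := (Nat.Prime.coprime_iff_not_dvd hp).2 hpk
  have hγK : ∀ y : Iz n (k * N) → ℝ, f ((y ∘ shG n (k * N) N) ∘ shs n p (k * N)) =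
      f (y ∘ shs n p (k * N)) := by
    intro y
    have e : (y ∘ shG n (k * N) N) ∘ shs n p (k * N) =
        (y ∘ shs n p (k * N)) ∘ shG n (p * (k * N)) N := by
      funext a
      exact congrArg y (OmC_fold a).symm
    rw [e, hγ]
  have hW'v : ∀ y ∈ W', f (y ∘ shs n p (k * N)) = v := by
    intro y hy
    obtain ⟨e1, e2, e3⟩ := hW'm y hy
    rw [← hz₀v]
    exact hsame i₀ _ e1 z₀ hz₀ e2 e3 (by rw [hz₀v]; exact hi₀1) (by rw [hz₀v]; exact hi₀2)
  have hev4 := Pool.Agent.H15.FU.split_dead (ZMod p) hW'b hW'v (shG n (k * N) N ^ p)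
    (fun l hl => OmC_fix_pow (Top_lat hl) p)
    (fun y => by
      show (p : ℝ) * qK n (k * N) _ = p * qK n (k * N) y
      rw [OmC_inv_pow (fun y => Adm_qK n (k * N) N y)])
    (fun y => by
      show (p : ℝ) * QK n (k * N) _ = p * QK n (k * N) y
      rw [OmC_inv_pow (fun y => Adm_QK n (k * N) N y)])
    (fun y => OmC_inv_pow (g := fun y => f (y ∘ shs n p (k * N))) hγK p y)
    (fun y hy l hl e => by
      have e1 := OmC_free hk hcop hl e
      obtain ⟨e2, -, -⟩ := hW'm y hy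
      refine hnf _ e2 (hW'v y hy) ?_
      funext a
      show y (shs n p (k * N) (shG n (p * (k * N)) N a)) = y (shs n p (k * N) a)
      rw [OmC_fold]
      exact congrFun e1 _)
  have hthin : ∀ y : Iz n (k * N) → ℝ, fderiv ℝ f (y ∘ shs n p (k * N)) = 0 →
      α i₀ ≤ f (y ∘ shs n p (k * N)) → f (y ∘ shs n p (k * N)) ≤ α (i₀ + 1) →
      f (y ∘ shs n p (k * N)) = v := by
    intro y e1 e2 e3
    obtain ⟨z, hz, l, hl, hy⟩ := (h.crit _).1 e1
    have e4 : f (y ∘ shs n p (k * N)) = f z := by rw [hy, hfp l hl z]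
    rw [e4] at e2 e3 ⊢
    rw [← hz₀v]
    exact hsame i₀ z hz z₀ hz₀ (lt_of_le_of_ne e2 (hαf i₀ z hz).symm)
      (lt_of_le_of_ne e3 (hαf (i₀ + 1) z hz)) (by rw [hz₀v]; exact hi₀1)
      (by rw [hz₀v]; exact hi₀2)
  refine ⟨α i₀, α (i₀ + 1), hi₀1, hi₀2, hthin, fun j => ?_⟩
  filter_upwards [hev1, hev2, hev3, hev4, eventually_ge_atTop 1] with M hM1 hM2 hM3 hM4 hM5
  refine hM4 j ?_
  have hm2 : 2 ≤ 2 ^ M := by
    calc 2 = 2 ^ 1 := rfl
      _ ≤ 2 ^ M := Nat.pow_le_pow_right (by norm_num) hM5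
  have hm0 : 0 < 2 ^ M := by omega
  -- the filtered complex
  set X : Set (Iz n (p * (k * N)) → ℤ) := Xm (qK n (p * (k * N))) R (2 ^ M) with hXdef
  set A : ℕ → Set (Iz n (p * (k * N)) → ℤ) :=
    fun i => Lv (qK n (p * (k * N))) (QK n (p * (k * N))) f R R (α i) (2 ^ M) with hAdef
  have hAmono : ∀ i, A i ⊆ A (i + 1) := fun i =>
    Lv_mono _ _ _ _ _ (hmono.monotone (Nat.le_succ i)) _
  have hAX : ∀ i, A i ⊆ X := fun i w hw => hw.1
  have hXL : Inv (lam (Lc n (p * (k * N))) (2 ^ M)) X := Xm_inv hD.qp R hm0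
  have hAL : ∀ i, Inv (lam (Lc n (p * (k * N))) (2 ^ M)) (A i) := fun i =>
    Lv_inv hD.qp hD.Qp hfp R R (α i) hm0
  have hAπ : ∀ i, PInv (shp n p (k * N)) (A i) := fun i => EqM_PInv h.inv R R (α i) (2 ^ M)
  have hXπ : PInv (shp n p (k * N)) X := by
    have := OmC_pinvX (n := n) (K := p * (k * N)) (N := k * N) R (2 ^ M)
    rwa [shG_eq] at this
  have hAγ : ∀ i, PInv (shG n (p * (k * N)) N) (A i) := fun i => OmC_pinv hγ R R (α i) (2 ^ M)
  have hXγ : PInv (shG n (p * (k * N)) N) X := OmC_pinvX R (2 ^ M)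
  have hcy := Cyc_K (n := n) (N := k * N) hp hm2
  have hfo := Fold_K (n := n) (p := p) (N := k * N) (m := 2 ^ M)
  have hops := Cyc_ops hcy hXπ
  set Fi : ℕ → ℕ → Submodule (ZMod p) (Co (Iz n (p * (k * N))) (ZMod p)) :=
    fun i => co (F := ZMod p) (lam (Lc n (p * (k * N))) (2 ^ M)) X (A i) with hFi
  have hsub : ∀ i, Sub (dX (F := ZMod p) X) (ta (ZMod p) (shp n p (k * N)))
      (nu (ZMod p) (shp n p (k * N)) p) (Fi i) := fun i => Cyc_sub hcy hXπ (hAπ i) hXL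
  have hFmono : ∀ i j, Fi (i + 1) j ≤ Fi i j := fun i j => co_anti (hAmono i) j
  have hrel : ∀ i j, HR (ZMod p) (lam (Lc n (p * (k * N))) (2 ^ M)) (A (i + 1)) (A i) j 0 →
      HK (dX (F := ZMod p) X) (Fi i) (Fi (i + 1)) (j + 1) 0 := fun i j hj =>
    HR.rel hXL (hAL (i + 1)) (hAmono i) (hAX (i + 1)) hj
  -- bands without values of class I
  have hout : ∀ i < M₀, (∀ z ∈ W, ClI G₁ G₂ f z → α i < f z → f z < α (i + 1) → False) →
      ∀ j, G₁ ≤ j → j ≤ G₂ → HK (dX (F := ZMod p) X) (Fi i) (Fi (i + 1)) j 0 := by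
    intro i hi hno j e1 e2
    cases j with
    | zero => exact Loc_HK_zero _ _
    | succ j =>
      refine hrel i j (hM1 i (Finset.mem_range.2 hi) j ?_)
      intro z hz
      obtain ⟨hz1, hz2, hz3⟩ := Finset.mem_filter.1 hz
      have h5 : ¬ ClI G₁ G₂ f z := fun h => hno z hz1 h hz2 hz3
      have h6 := h.win z hz1 G₂ (Or.inr rfl)
      have h7 := h.win z hz1 G₁ (Or.inl rfl)
      unfold ClI at h5
      omega
  -- bands with values of class I
  have hall : ∀ i, ∀ z ∈ W, ClI G₁ G₂ f z → α i < f z → f z < α (i + 1) →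
      ∀ z' ∈ W, α i < f z' → f z' < α (i + 1) → ClI G₁ G₂ f z' := by
    intro i z hz hzI e1 e2 z' hz' e3 e4
    by_contra hcon
    exact hsep z hz z' hz' hzI hcon (hsame i z hz z' hz' e1 e2 e3 e4)
  have hinb : ∀ i < M₀, (∃ z ∈ W, ClI G₁ G₂ f z ∧ α i < f z ∧ f z < α (i + 1)) →
      ∀ j, (j ≤ G₁ ∨ G₂ ≤ j) → HK (dX (F := ZMod p) X) (Fi i) (Fi (i + 1)) j 0 := by
    rintro i hi ⟨z₁, hz₁, e1, e2, e3⟩ j hj
    cases j with
    | zero => exact Loc_HK_zero _ _
    | succ j =>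
      refine hrel i j (hM1 i (Finset.mem_range.2 hi) j ?_)
      intro z hz
      obtain ⟨hz1, hz2, hz3⟩ := Finset.mem_filter.1 hz
      have h5 := hall i z₁ hz₁ e1 e2 e3 z hz1 hz2 hz3
      have h6 := h.win z hz1 G₂ (Or.inr rfl)
      unfold ClI at h5
      omega
  -- commutation
  have hcomm : ∀ c : Co (Iz n (p * (k * N))) (ZMod p), Tp (shG n (p * (k * N)) N)
      (Tp (shp n p (k * N)) c) = Tp (shp n p (k * N)) (Tp (shG n (p * (k * N)) N) c) := by
    intro c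
    have e1 : shp n p (k * N) = shG n (p * (k * N)) N ^ k := by
      rw [← shG_eq]
      exact shG_pow n (p * (k * N)) N k
    ext σ
    rw [Free_Tp, Free_Tp, Free_Tp, Free_Tp, ← Free_mul, ← Free_mul, e1, ← pow_succ, ← pow_succ']
  have hcomm' : ∀ (i : ℕ) (c : Co (Iz n (p * (k * N))) (ZMod p)), Tp (shG n (p * (k * N)) N)
      (((Tp (shp n p (k * N))) ^ i) c) =
        ((Tp (shp n p (k * N))) ^ i) (Tp (shG n (p * (k * N)) N) c) := by
    intro i
    induction i with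
    | zero => intro c; rfl
    | succ i ih =>
      intro c
      rw [pow_succ', Module.End.mul_apply, Module.End.mul_apply, hcomm, ih]
  -- slips
  have hslips : ∀ a b : ℕ, a ≤ M₀ → v - B - 2 ≤ α a → α b ≤ α a - C₀ → ∀ j, ∀ x ∈ Fi a j,
      dX (F := ZMod p) X x = 0 → ∃ y ∈ pr (Fi b) j, x - Tp (shG n (p * (k * N)) N) x =
        dX (F := ZMod p) X y := by
    intro a b ha hb hab j x hx hdx
    cases j with
    | zero =>
      have hx0 : x = 0 := by
        have e : co (F := ZMod p) (lam (Lc n (p * (k * N))) (2 ^ M)) X (A a) 0 = ⊥ := co_zero _ _ _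
        have hx' : x ∈ co (F := ZMod p) (lam (Lc n (p * (k * N))) (2 ^ M)) X (A a) 0 := hx
        rw [e, Submodule.mem_bot] at hx'
        exact hx'
      refine ⟨0, Submodule.zero_mem _, ?_⟩
      rw [hx0, map_zero, sub_zero, map_zero]
    | succ j =>
      obtain ⟨y, hy, hxy⟩ := hM3 a (Finset.mem_range.2 (by omega)) hb j x hx hdx
      exact ⟨y, co_anti (Lv_mono _ _ _ _ _ hab _) j hy, hxy⟩
  have htk := band_PS hops Fi hsub hFmono (Fintype.card (Iz n (p * (k * N))) + 2)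
    (fun j hj => co_big _ _ _ (by omega)) h12 (T₀ := Tp (shG n (p * (k * N)) N))
    (fun x => (Free_dT hXγ x).symm)
    (fun x => by rw [Free_ta_apply, Free_ta_apply, map_sub, hcomm])
    (fun x => by
      rw [Free_nu_apply, Free_nu_apply, map_sum]
      exact Finset.sum_congr rfl fun i _ => hcomm' i x)
    (fun i j x hx => Free_T_mem (fun l hl => by
      obtain ⟨c, hc⟩ := ShK_lam.1 hl
      funext a
      obtain ⟨j, b⟩ := a
      exact (hc _ _).trans (hc _ _).symm) hXγ (hAγ i) hx)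
    (p := p) (k := k) (fun e => hpk ((ZMod.natCast_eq_zero_iff k p).1 e))
    (fun x => by
      rw [Free_pow_p OmC_pow_one']
      rfl)
    s t hs1 ht1 i₀ hs0.le (by rw [hr21, ht0]; exact Nat.lt_succ_self i₀)
    (fun i hi => by
      rw [hr21] at hi
      refine hslips _ _ ((hs' i).trans hi₀M.le) ?_ (hs2 i hi)
      have e1 := hs3 i hi.le
      have e2 : (i : ℝ) * (C₀ + 1) ≤ r * (C₀ + 1) :=
        mul_le_mul_of_nonneg_right (by exact_mod_cast hi.le) (by linarith)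
      linarith)
    (fun i hi => by
      rw [hr21] at hi
      refine hslips _ _ ((ht' i).trans htM.le) ?_ (ht2 i hi)
      have e1 : α (i₀ + 1) ≤ α (t i) := hmono.monotone (ht'' i hi.le)
      linarith)
    (fun i e1 e2 e3 => by
      rw [hr21] at e1
      have hiM : i < M₀ := e2.trans htM
      by_cases hPi : ∃ z ∈ W, ClI G₁ G₂ f z ∧ α i < f z ∧ f z < α (i + 1)
      · right
        refine ⟨hinb i hiM hPi, fun m => ?_⟩
        obtain ⟨z₁, hz₁, e4, e5, e6⟩ := hPi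
        have e7 := hM2 i (Finset.mem_range.2 hiM) (fun z hz hzT e8 e9 =>
          hno i e1 e2 e3 z hz hzT (hall i z₁ hz₁ e4 e5 e6 z hz e8 e9) e8 e9)
        have e8 := loc_band hcy hfo hXπ (hAπ i) (hAπ (i + 1)) hXL (hAL i) (hAL (i + 1))
          (hAmono i) (hAX (i + 1)) (fun _ => 0) e7 m
        rwa [Finset.sum_const_zero] at e8
      · left
        exact hout i hiM fun z hz e4 e5 e6 => hPi ⟨z, hz, e4, e5, e6⟩)
    (hinb i₀ hi₀M ⟨z₀, hz₀, hz₀I, by rw [hz₀v]; exact hi₀1, by rw [hz₀v]; exact hi₀2⟩)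
  have hres := pco (γ := shG n (p * (k * N)) N) (γ' := shG n (k * N) N ^ p) hcy hfo hXπ (hAπ i₀)
    (hAπ (i₀ + 1)) hXL (hAL i₀) (hAL (i₀ + 1)) (hAmono i₀) (hAX (i₀ + 1))
    (fun l hl => by
      obtain ⟨c, hc⟩ := ShK_lam.1 hl
      funext a
      obtain ⟨j, b⟩ := a
      exact (hc _ _).trans (hc _ _).symm)
    (by
      have e1 : shp n p (k * N) = shG n (p * (k * N)) N ^ k := by
        rw [← shG_eq]
        exact shG_pow n (p * (k * N)) N k
      rw [e1, ← pow_succ, ← pow_succ'])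
    hXγ (hAγ i₀) (hAγ (i₀ + 1)) (u := p) (k := k)
    (fun e => hpk ((ZMod.natCast_eq_zero_iff k p).1 e)) OmC_pow_one'
    (fun i => OmC_fold_pow p i) htk j
  have e2 : fo (shs n p (k * N)) (A (i₀ + 1)) = _ := EqM_fo_Lv f R R (α (i₀ + 1)) (2 ^ M)
  have e3 : fo (shs n p (k * N)) (A i₀) = _ := EqM_fo_Lv f R R (α i₀) (2 ^ M)
  rw [e2, e3] at hres
  exact hres

end Pool.Agent.H4.FU
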