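import Pool.Agent.H75.TH.LevP
import Pool.Agent.H75.FU.SlipS
import Pool.Agent.H4.FU.Defs
import Pool.Agent.H45.AC.LevK2

/-!
# Project FULL: a linear number of new indices at every large prime level
-/

set_option autoImplicit false

open Module QuadraticForm Filter Topology
open Pool.Agent.H47.QG (Pt action flw oseq Gen ind hess Zn MeanIdx)
open Pool.Agent.H47.ST
open Pool.Agent.H45.AC (Adm ClI SepI shG av)
open Pool.Agent.H75.TH
open Pool.Agent.H75.FU (Slip slip_fS)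

namespace Pool.Agent.H4.FU

variable {n : ℕ}

/-- `WrongN` for `K = k N` -/
def WrongK (S : ℕ → Pt n → ℝ) (f : ℕ → Pt n → Pt n) (N K : ℕ) [NeZero K] : Prop :=
  ∀ C : ℝ, ∃ ε > 0, ∃ (R₀ : ℝ) (q₀ : ℕ), ∀ (q : ℕ) [Fact q.Prime], q₀ ≤ q →
    ∀ g : (Iz n K → ℝ) → ℝ, Near S K C ε g → Sepd S f K g → ∀ R ≥ R₀,
      ∃ w, flw f K w = w ∧ (∀ w', flw f N w' = w' → g (zw f K w') ≠ g (zw f K w)) ∧
        Alive f K g q R (g (zw f K w))

theorem wrongN_iff (S : ℕ → Pt n → ℝ) (f : ℕ → Pt n → Pt n) (N k : ℕ) [NeZero (k * N)] :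
    WrongN S f N k ↔ WrongK S f N (k * N) := Iff.rfl

/-- TEMPORARY (helper75) -/
theorem om_core {n p k N K : ℕ} (hK : K = k * N) [NeZero N] [NeZero K] [NeZero (p * K)]
    [Fact p.Prime] (hpk : ¬ p ∣ k) {C : ℝ} {G₁ G₂ : ℕ} (h12 : G₁ < G₂)
    {f : (Iz n (p * K) → ℝ) → ℝ} {W : Finset (Iz n (p * K) → ℝ)}
    (h : Adm n (p * K) (shp n p K) C G₁ G₂ f W) (hsep : SepI G₁ G₂ f W)
    (hγ : ∀ y, f (y ∘ shG n (p * K) N) = f y) {C₀ : ℝ} (hC₀ : 0 ≤ C₀)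
    (hslip : Slip (ZMod p) n (p * K) (shG n (p * K) N) f C₀) :
    ∃ R₀ : ℝ, ∀ R ≥ R₀, ∀ v κ : ℝ,
      (∃ z ∈ W, z ∘ shp n p K = z ∧ ClI G₁ G₂ f z ∧ f z = v) →
      (∀ z ∈ W, z ∘ shp n p K = z → ClI G₁ G₂ f z → f z ≠ v → κ ≤ |f z - v|) →
      ((G₂ : ℝ) - G₁ + 2) * C₀ < κ →
      (∀ z ∈ W, ∀ l ∈ Lc n (p * K), z ∘ shG n (p * K) N = z + rl l → f z ≠ v) →
      ¬ (∀ b₁ b₂ : ℝ, b₁ < v → v < b₂ →
        (∀ y : Iz n K → ℝ, fderiv ℝ f (y ∘ shs n p K) = 0 → b₁ ≤ f (y ∘ shs n p K) →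
          f (y ∘ shs n p K) ≤ b₂ → f (y ∘ shs n p K) = v) →
        ∃ j, ∃ᶠ M : ℕ in atTop, ¬ HR (ZMod p) (lam (Lc n K) (2 ^ M))
          (Lv (fun t => p * qK n K t) (fun t => p * QK n K t)
            (fun y : Iz n K → ℝ => f (y ∘ shs n p K)) R R b₂ (2 ^ M))
          (Lv (fun t => p * qK n K t) (fun t => p * QK n K t)
            (fun y : Iz n K → ℝ => f (y ∘ shs n p K)) R R b₁ (2 ^ M)) j 0) := by
  sorry

/-- a point of period `m N` whose image differs from it by an integer vector is fixed -/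
theorem fix_of_shift {S : ℕ → Pt n → ℝ} {f : ℕ → Pt n → Pt n} (hS : ∀ j, Gen (S j) (f j))
    {N m : ℕ} (hm : 0 < m) (hfper : ∀ j, f (j + N) = f j) {w : Pt n}
    (hw : flw f (m * N) w = w) (h : flw f N w - w ∈ Zn n) : flw f N w = w := by
  have key : ∀ j : ℕ, flw f (j * N) w = w + j • (flw f N w - w) := by
    intro j
    induction j with
    | zero => rw [Nat.zero_mul, zero_smul, add_zero]; rfl
    | succ j ih =>
      have h1 : flw f ((j + 1) * N) w = flw f N (flw f (j * N) w) := by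
        rw [Pool.Agent.H47.QG.flw_mul hfper, Pool.Agent.H47.QG.flw_mul hfper,
          Function.iterate_succ_apply']
      rw [h1, ih, Pool.Agent.H47.QG.flw_add_int hS N w _ ((Zn n).nsmul_mem h j), succ_nsmul]
      abel
  have h2 := key m
  rw [hw] at h2
  have h3 : m • (flw f N w - w) = 0 := by
    have h4 : w + m • (flw f N w - w) = w + 0 := by rw [add_zero]; exact h2.symm
    exact add_left_cancel h4
  have h5 : flw f N w - w = 0 := by
    rw [← Nat.cast_smul_eq_nsmul ℝ] at h3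
    rcases smul_eq_zero.1 h3 with h6 | h6
    · exact absurd h6 (by exact_mod_cast hm.ne')
    · exact h6
  exact sub_eq_zero.1 h5

/-- the numerical part -/
theorem OmL_const (n V p : ℕ) (κ C₀ : ℝ) (hκ : 0 < κ) (hC₀ : 0 < C₀)
    (hp : (4 * (16 * n + 8) : ℝ) * C₀ < p * κ)
    (hV : (V : ℝ) < κ / (4 * (2 * n + 1) * C₀) * p) :
    (2 * (6 * n + 2 + (2 * n + 1) * (V + 2) : ℝ) + 2) * C₀ < p * κ := by
  have hn : (0 : ℝ) < 2 * n + 1 := by positivity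
  have h1 : (2 * n + 1 : ℝ) * V * C₀ < κ * p / 4 := by
    calc (2 * n + 1 : ℝ) * V * C₀ = ((2 * n + 1) * C₀) * V := by ring
      _ < ((2 * n + 1) * C₀) * (κ / (4 * (2 * n + 1) * C₀) * p) :=
          mul_lt_mul_of_pos_left hV (by positivity)
      _ = κ * p / 4 := by field_simp
  have h2 : (2 * (6 * n + 2 + (2 * n + 1) * (V + 2) : ℝ) + 2) * C₀ =
      2 * ((2 * n + 1 : ℝ) * V * C₀) + (20 * n + 10) * C₀ := by ring
  have h3 : (0 : ℝ) ≤ n * C₀ := by positivity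
  rw [h2]
  nlinarith

/-- **A linear number of new indices**, for `K = k N`. -/
theorem level_omK {S : ℕ → Pt n → ℝ} {f : ℕ → Pt n → Pt n} (hS : ∀ j, Gen (S j) (f j))
    {N k K : ℕ} (hK : K = k * N) (hk : Odd k) [NeZero N] [NeZero K]
    (hper : ∀ j, S (j + N) = S j) (hfper : ∀ j, f (j + N) = f j) (hWr : WrongK S f N K)
    (hfin : ∀ m : ℕ, 0 < m → ∃ W : Finset (Pt n),
      (∀ w, flw f (m * K) w = w ↔ ∃ w' ∈ W, w - w' ∈ Zn n) ∧
      ∀ w ∈ W, ∀ w' ∈ W, w - w' ∈ Zn n → w = w') :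
    ∃ c₁ > 0, ∀ᶠ p : ℕ in atTop, p.Prime → ∀ V : ℕ,
        (∀ A : Finset ℕ, (∀ a ∈ A, ∃ w, flw f (p * K) w = w ∧ flw f K w ≠ w ∧
          ind S f (p * K) w = a) → A.card ≤ V) → c₁ * p ≤ (V : ℝ) := by
  classical
  have hN : 0 < N := Nat.pos_of_ne_zero (NeZero.ne N)
  have hkpos : 0 < k := hk.pos
  have hKper : ∀ j, S (j + K) = S j := by
    intro j
    rw [hK]
    exact LevP_per hper k j
  have hKfper : ∀ j, f (j + K) = f j := by
    intro j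
    rw [hK]
    exact Pool.Agent.H47.QG.IterT_per f N k hfper j
  obtain ⟨B, hB0, hB⟩ := Pool.Agent.H45.AC.S_bdd hS hN hper
  obtain ⟨W₁, hW₁, hW₁d⟩ := hfin 1 one_pos
  have hW₁' : ∀ w, flw f K w = w ↔ ∃ w' ∈ W₁, w - w' ∈ Zn n := by
    intro w
    have := hW₁ w
    rwa [one_mul] at this
  obtain ⟨T, e, κ₀, he, hκ₀, hT, hTe, hT0, hTW, hgap⟩ := lev_data hS hKper hKfper W₁ hW₁'
  have hW₁f : ∀ w ∈ W₁, flw f K w = w := fun w hw =>
    (hW₁' w).2 ⟨w, hw, by rw [sub_self]; exact (Zn n).zero_mem⟩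
  set tt : Finset ℝ := W₁.image T with htt_def
  have htt : ∀ t ∈ tt, ∃ w, flw f K w = w ∧ T w = t := by
    intro t ht
    obtain ⟨w, hw, rfl⟩ := Finset.mem_image.1 ht
    exact ⟨w, hW₁f w hw, rfl⟩
  have htt' : ∀ w, flw f K w = w → T w ∈ tt := by
    intro w hw
    obtain ⟨w', hw', he'⟩ := hTW w hw
    rw [← he']
    exact Finset.mem_image_of_mem T hw'
  have htte : ∀ t ∈ tt, 0 ≤ t + n * K := by
    intro t ht
    obtain ⟨w, hw, rfl⟩ := htt t ht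
    exact (hT w hw).2.1
  obtain ⟨ε, hε, R₀, q₀, hWr'⟩ := hWr tt.card
  have hnr : (0 : ℝ) ≤ n := Nat.cast_nonneg n
  have hKr : (0 : ℝ) ≤ K := Nat.cast_nonneg K
  have hD : (0 : ℝ) < 2 * n + 1 := by positivity
  set C₀ : ℝ := 4 * N * B + 3 with hC₀def
  have hC₀ : 0 < C₀ := by positivity
  set c₁ : ℝ := min (e / (4 * (2 * n + 1))) (κ₀ / (4 * (2 * n + 1) * C₀)) with hc₁def
  have hc₁ : 0 < c₁ := lt_min (by positivity) (by positivity)
  refine ⟨c₁, hc₁, ?_⟩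
  have hev : ∀ᶠ p : ℕ in atTop, (48 * n + 18 : ℝ) < p * e := by
    have h1 : Tendsto (fun p : ℕ => (p : ℝ) * e) atTop atTop :=
      Tendsto.atTop_mul_const he tendsto_natCast_atTop_atTop
    exact h1.eventually_gt_atTop _
  have hev2 : ∀ᶠ p : ℕ in atTop, (4 * (16 * n + 8) : ℝ) * C₀ < p * κ₀ := by
    have h1 : Tendsto (fun p : ℕ => (p : ℝ) * κ₀) atTop atTop :=
      Tendsto.atTop_mul_const hκ₀ tendsto_natCast_atTop_atTop
    exact h1.eventually_gt_atTop _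
  filter_upwards [hev, hev2, eventually_ge_atTop q₀, eventually_gt_atTop (k + 2)]
    with p hpe hpe2 hpq hpk hpp V hV
  by_contra hc
  push Not at hc
  have hcV1 : (V : ℝ) < e / (4 * (2 * n + 1)) * p :=
    hc.trans_le (mul_le_mul_of_nonneg_right (min_le_left _ _) (Nat.cast_nonneg p))
  have hcV2 : (V : ℝ) < κ₀ / (4 * (2 * n + 1) * C₀) * p :=
    hc.trans_le (mul_le_mul_of_nonneg_right (min_le_right _ _) (Nat.cast_nonneg p))
  have hconst := LevP_const n V p e he hpe hcV1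
  have hconst2 := OmL_const n V p κ₀ C₀ hκ₀ hC₀ hpe2 hcV2
  set w₀ : ℝ := 6 * n + 2 + (2 * n + 1) * (V + 2) with hw₀
  have hVr : (0 : ℝ) ≤ V := Nat.cast_nonneg V
  have hw₀0 : 0 ≤ w₀ := by positivity
  have : Fact p.Prime := ⟨hpp⟩
  have hne : NeZero (p * K) := ⟨Nat.mul_ne_zero hpp.ne_zero (NeZero.ne K)⟩
  have hpr : (0 : ℝ) < p := by exact_mod_cast hpp.pos
  have hp1 : (1 : ℝ) ≤ p := by exact_mod_cast hpp.one_le
  obtain ⟨W, hW, hWd⟩ := hfin p hpp.pos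
  have hWf : ∀ w ∈ W, flw f (p * K) w = w := fun w hw =>
    (hW w).2 ⟨w, hw, by rw [sub_self]; exact (Zn n).zero_mem⟩
  have hfixp : ∀ w, flw f K w = w → flw f (p * K) w = w := by
    intro w hw
    rw [Pool.Agent.H47.QG.flw_mul hKfper]
    exact Function.iterate_fixed hw p
  -- the thresholds
  set A : Finset ℕ := (W.filter (fun w => flw f K w ≠ w)).image (ind S f (p * K)) with hA
  have hAV : A.card ≤ V := hV A (by
    intro a ha
    obtain ⟨w, hw, rfl⟩ := Finset.mem_image.1 ha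
    rw [Finset.mem_filter] at hw
    exact ⟨w, hWf w hw.1, hw.2, rfl⟩)
  have hindtr : ∀ w w' : Pt n, w - w' ∈ Zn n → ind S f (p * K) w = ind S f (p * K) w' := by
    intro w w' h
    rw [← fS_sigNeg hS, ← fS_sigNeg hS, (LevP_val hS (p * K) (fS_per hS (p * K)) h).2]
  have hthr : ∀ t : ℝ, ∃ G : ℕ × ℕ, t ∈ tt → (G.1 = 0 ∨ (G.1 : ℝ) ≤ p * (t + n * K) - 2 * n) ∧
      p * (t + n * K) - w₀ ≤ G.1 ∧ p * (t + n * K) + 4 * n + 1 < G.2 ∧
      (G.2 : ℝ) ≤ p * (t + n * K) + w₀ ∧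
      ∀ a ∈ A, ∀ G', (G' = G.1 ∨ G' = G.2) → ¬ (a < G' ∧ G' ≤ a + 2 * n + 1) := by
    intro t
    by_cases ht : t ∈ tt
    · obtain ⟨G₁, G₂, h1, h2, h3, h4, h5⟩ := exists_thr n V A hAV (p * (t + n * K))
        (mul_nonneg hpr.le (htte t ht))
      refine ⟨(G₁, G₂), fun _ => ⟨h1, ?_, h3, ?_, h5⟩⟩
      · rw [hw₀]
        linarith
      · rw [hw₀]
        linarith
    · exact ⟨(0, 0), fun h => absurd h ht⟩
  choose G hG using hthr
  have hAw : ∀ w, flw f (p * K) w = w → flw f K w ≠ w → ∀ t ∈ tt, ∀ G',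
      (G' = (G t).1 ∨ G' = (G t).2) →
      ¬ (ind S f (p * K) w < G' ∧ G' ≤ ind S f (p * K) w + 2 * n + 1) := by
    intro w hw hw' t ht G' hG'
    obtain ⟨w₁, hw₁, hww⟩ := (hW w).1 hw
    refine (hG t ht).2.2.2.2 _ ?_ G' hG'
    rw [hindtr w w₁ hww]
    refine Finset.mem_image_of_mem _ (Finset.mem_filter.2 ⟨hw₁, fun h => hw' ?_⟩)
    exact LevP_fix_tr hS K h (by rw [← neg_sub]; exact (Zn n).neg_mem hww)
  have hε1 : 0 < min ε (1 / 8) := lt_min hε (by norm_num)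
  obtain ⟨C, f', ε', Z, hZ, hsm, hpr', hγ, hshp, hsup, hcr, hloc, hgr, hAS, hsn, hcl, hval, hsepv⟩ :=
    lev_pert hS hK hpp hper hfper W hW hWd T e
      (fun w hw => ⟨(hT w hw).1, (hT w hw).2.2 p hpp.pos⟩) hTe tt htt w₀ hconst
      (fun t => (G t).1) (fun t => (G t).2)
      (fun t ht => ⟨(hG t ht).1, (hG t ht).2.1, (hG t ht).2.2.1, (hG t ht).2.2.2.1⟩) hAw
      (min ε (1 / 8)) hε1
  have hfold : ∀ w, flw f K w = w → zw f (p * K) w = zw f K w ∘ shs n p K := fun w hw =>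
    zw_fold p K hKfper w hw
  -- the restriction of `f'`
  have hnear : Near S K tt.card ε (fun y => f' (y ∘ shs n p K) / p) :=
    fold_near hS hpp hKper hKfper f' tt.card ε hsm hpr' hshp hgr
      (fun y => (hsup y).trans ((min_le_left _ _).trans (le_mul_of_one_le_left hε.le hp1)))
      hcr hloc
  have hsepd : Sepd S f K (fun y => f' (y ∘ shs n p K) / p) := by
    intro w w' t t' hw hw' ht ht' hne
    have e1 : T w = t := LevP_unique (hT w hw).1 ht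
    have e2 : T w' = t' := LevP_unique (hT w' hw').1 ht'
    have key : f' (zw f (p * K) w) ≠ f' (zw f (p * K) w') :=
      hsepv w w' hw hw' (htt' w hw) (by rw [e1, e2]; exact Ne.symm hne)
    rw [hfold w hw, hfold w' hw'] at key
    intro h
    have h2 : f' (zw f K w ∘ shs n p K) / p = f' (zw f K w' ∘ shs n p K) / p := h
    rw [div_left_inj' hpr.ne'] at h2
    exact key h2
  -- the slip property
  have hpodd : Odd p := hpp.odd_of_ne_two (by omega)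
  have hslip : ∀ C' : ℝ, (∀ y b, |fderiv ℝ f' y (Pi.single b 1) - DK n (p * K) y b| ≤ C') →
      Slip (ZMod p) n (p * K) (shG n (p * K) N) f' C₀ := by
    intro C' hC'
    exact slip_fS hS hN (hpodd.mul hk) (by rw [hK]; ring) hper hB (ZMod p) hsm hpr' hC' hγ
      (fun y => (hsup y).trans ((min_le_right _ _).trans (by norm_num)))
  have hcore : ∀ t : ℝ, ∃ R₁ : ℝ, t ∈ tt → ∀ R ≥ R₁, ∀ v κ : ℝ,
      (∃ z ∈ Z, z ∘ shp n p K = z ∧ ClI (G t).1 (G t).2 f' z ∧ f' z = v) →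
      (∀ z ∈ Z, z ∘ shp n p K = z → ClI (G t).1 (G t).2 f' z → f' z ≠ v → κ ≤ |f' z - v|) →
      (((G t).2 : ℝ) - (G t).1 + 2) * C₀ < κ →
      (∀ z ∈ Z, ∀ l ∈ Lc n (p * K), z ∘ shG n (p * K) N = z + rl l → f' z ≠ v) →
      ¬ (∀ b₁ b₂ : ℝ, b₁ < v → v < b₂ →
        (∀ y : Iz n K → ℝ, fderiv ℝ f' (y ∘ shs n p K) = 0 → b₁ ≤ f' (y ∘ shs n p K) →
          f' (y ∘ shs n p K) ≤ b₂ → f' (y ∘ shs n p K) = v) →
        ∃ j, ∃ᶠ M : ℕ in atTop, ¬ HR (ZMod p) (lam (Lc n K) (2 ^ M))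
          (Lv (fun t => p * qK n K t) (fun t => p * QK n K t)
            (fun y : Iz n K → ℝ => f' (y ∘ shs n p K)) R R b₂ (2 ^ M))
          (Lv (fun t => p * qK n K t) (fun t => p * QK n K t)
            (fun y : Iz n K → ℝ => f' (y ∘ shs n p K)) R R b₁ (2 ^ M)) j 0) := by
    intro t
    by_cases ht : t ∈ tt
    · obtain ⟨hg1, hg2, hg3, hg4, -⟩ := hG t ht
      have h12 : (G t).1 < (G t).2 := by
        have : ((G t).1 : ℝ) < (G t).2 := by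
          rcases hg1 with h | h
          · rw [h, Nat.cast_zero]
            have : 0 ≤ (p : ℝ) * (t + n * K) := mul_nonneg hpr.le (htte t ht)
            linarith
          · linarith
        exact_mod_cast this
      obtain ⟨hAd, hSe⟩ := hAS t ht
      obtain ⟨R₁, hR₁⟩ := om_core hK (fun hd => by
        have := Nat.le_of_dvd hkpos hd
        omega) h12 hAd hSe hγ hC₀.le (hslip C hAd.grad)
      exact ⟨R₁, fun _ => hR₁⟩
    · exact ⟨0, fun h => absurd h ht⟩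
  choose R₁ hR₁ using hcore
  obtain ⟨R, hR⟩ := Finset.exists_le (insert ((p : ℝ) * R₀) (tt.image R₁))
  have hRp : (p : ℝ) * R₀ ≤ R := hR _ (Finset.mem_insert_self _ _)
  obtain ⟨w, hw, hnf, hal⟩ := hWr' p hpq _ hnear hsepd (R / p) (by
    rw [ge_iff_le, le_div_iff₀ hpr, mul_comm]
    exact hRp)
  have htT : T w ∈ tt := htt' w hw
  have hRt : R₁ (T w) ≤ R := hR _ (Finset.mem_insert_of_mem (Finset.mem_image_of_mem R₁ htT))
  have hvw : (p : ℝ) * (f' (zw f K w ∘ shs n p K) / p) = f' (zw f (p * K) w) := by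
    rw [hfold w hw]
    field_simp
  have hrep : ∀ w₁, flw f K w₁ = w₁ → ∃ w' ∈ W, w₁ - w' ∈ Zn n ∧ flw f K w' = w' := by
    intro w₁ hw₁
    obtain ⟨w', hw', hww⟩ := (hW w₁).1 (hfixp w₁ hw₁)
    exact ⟨w', hw', hww, LevP_fix_tr hS K hw₁ hww⟩
  refine hR₁ (T w) htT R hRt (f' (zw f (p * K) w)) (p * κ₀) ?_ ?_ ?_ ?_ ?_
  · obtain ⟨w', hw', hww, hfw'⟩ := hrep w hw
    obtain ⟨h1, h2⟩ := LevP_val hS (p * K) hpr' hww
    refine ⟨zw f (p * K) w', (hZ _).2 ⟨w', hw', rfl⟩, ?_, ?_, h1.symm⟩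
    · rw [hfold w' hfw']
      exact (shp_fix _).2 ⟨_, rfl⟩
    · have h3 := (hcl (T w) htT w hw).2 rfl
      unfold ClI at h3 ⊢
      rwa [h2] at h3
  · intro z hz hzs hzI hzv
    obtain ⟨y, rfl⟩ := (shp_fix z).1 hzs
    have hcy : fderiv ℝ (fS S (p * K)) (y ∘ shs n p K) = 0 := by
      rw [← hcr]
      obtain ⟨hAd, -⟩ := hAS (T w) htT
      exact (hAd.crit _).2 ⟨_, hz, 0, (Lc n (p * K)).zero_mem, by rw [Win_rl_zero, add_zero]⟩
    obtain ⟨w₂, hw₂, hw₂p, -, hyw⟩ := GrowA_fold hS hpp.two_le hKfper y hcy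
    rw [hyw] at hzI hzv ⊢
    have hT2 : T w₂ = T w := (hcl (T w) htT w₂ hw₂).1 hzI
    rw [hval (T w) htT w₂ hw₂ hT2, hval (T w) htT w hw rfl, hfold w₂ hw₂, hfold w hw,
      fS_fold p K hKper, fS_fold p K hKper] at hzv ⊢
    have h3 : (p : ℝ) * fS S K (zw f K w₂) + ε' (T w) - (p * fS S K (zw f K w) + ε' (T w)) =
        p * (fS S K (zw f K w₂) - fS S K (zw f K w)) := by ring
    rw [h3, abs_mul, abs_of_pos hpr]
    refine mul_le_mul_of_nonneg_left (hgap w₂ w hw₂ hw fun h => hzv (by rw [h])) hpr.le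
  · obtain ⟨hg1, hg2, hg3, hg4, -⟩ := hG (T w) htT
    refine lt_of_le_of_lt (mul_le_mul_of_nonneg_right ?_ hC₀.le) hconst2
    linarith
  · intro z hz l hl hzl hzv
    obtain ⟨w₂, hw₂, rfl⟩ := (hZ z).1 hz
    have hw₂f := hWf w₂ hw₂
    have hL : p * K = (p * k) * N := by rw [hK]; ring
    rw [← LevP_map hL hfper w₂ hw₂f] at hzl
    have h1 : flw f N w₂ - w₂ ∈ Zn n := (zw_add hS (p * K) _ _).1 ⟨l, hl, hzl⟩
    have h2 : flw f N w₂ = w₂ := fix_of_shift hS (Nat.mul_pos hpp.pos hkpos) hfper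
      (by rw [← hL]; exact hw₂f) h1
    have h3 : flw f K w₂ = w₂ := by
      rw [hK]
      exact Pool.Agent.H45.AC.LevK_mul_fix hfper k w₂ h2
    refine hnf w₂ h2 ?_
    show f' (zw f K w₂ ∘ shs n p K) / p = f' (zw f K w ∘ shs n p K) / p
    rw [← hfold w₂ h3, ← hfold w hw, hzv]
  · have h := fold_alive hS hKper hKfper f' hcr R _ hal
    rw [hvw] at h
    exact h

/-- **A linear number of new indices.** -/
theorem level_om {S : ℕ → Pt n → ℝ} {f : ℕ → Pt n → Pt n} (hS : ∀ j, Gen (S j) (f j))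
    {N k : ℕ} (hk : Odd k) [NeZero N] [NeZero (k * N)]
    (hper : ∀ j, S (j + N) = S j) (hfper : ∀ j, f (j + N) = f j) (hWr : WrongN S f N k)
    (hfin : ∀ m : ℕ, 0 < m → ∃ W : Finset (Pt n),
      (∀ w, flw f (m * (k * N)) w = w ↔ ∃ w' ∈ W, w - w' ∈ Zn n) ∧
      ∀ w ∈ W, ∀ w' ∈ W, w - w' ∈ Zn n → w = w') :
    ∃ c₁ > 0, ∀ᶠ p : ℕ in atTop, p.Prime → ∀ V : ℕ,
        (∀ A : Finset ℕ, (∀ a ∈ A, ∃ w, flw f (p * (k * N)) w = w ∧ flw f (k * N) w ≠ w ∧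
          ind S f (p * (k * N)) w = a) → A.card ≤ V) → c₁ * p ≤ (V : ℝ) :=
  level_omK hS rfl hk hper hfper hWr hfin

end Pool.Agent.H4.FU
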